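import Pool.Agent.H.MP_2e4794_nt.ZM.Mom

/-!
# The size of the exceptional sets
-/

namespace Pool.Agent.H.MP_2e4794_nt.ZM

open Finset Filter Topology MeasureTheory

/-- the sum over the primes in `(P, 2P]` -/
noncomputable def SS (P : ℕ) (σ t : ℝ) : ℂ :=
  ∑ p ∈ prs P (2 * P), (p : ℂ) ^ (-(σ + t * Complex.I))

lemma continuous_SS (P : ℕ) (σ : ℝ) : Continuous (SS P σ) := by
  unfold SS
  apply continuous_finsetSum
  intro p hp
  rw [mem_prs] at hp
  have : (p : ℂ) ≠ 0 := by exact_mod_cast hp.2.ne_zero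
  exact Continuous.const_cpow (by fun_prop) (Or.inl this)

lemma meas_le {P : ℕ} (hP : 1 ≤ P) (k : ℕ) {σ : ℝ} (hσ : 1 ≤ σ) (x H : ℝ) (hH : 0 ≤ H) {δ : ℝ}
    (hδ : 0 < δ) :
    (volume.restrict (Set.Ioc x (x + H))).real {t | δ ≤ ‖SS P σ t‖} ≤
      (1 / δ) ^ (2 * k) * ((H + 4 * (2 * P : ℝ) ^ k * (1 + k * Real.log (2 * P))) *
        (k.factorial * (1 / P : ℝ) ^ k)) := by
  have hc : Continuous fun t => ‖SS P σ t‖ ^ (2 * k) := (continuous_SS P σ).norm.pow _
  have h1 := mul_meas_ge_le_integral_of_nonneg (μ := volume.restrict (Set.Ioc x (x + H)))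
    (f := fun t => ‖SS P σ t‖ ^ (2 * k)) (Eventually.of_forall fun t => by positivity)
    (by
      have := (hc.intervalIntegrable (μ := volume) x (x + H)).1
      exact this) (δ ^ (2 * k))
  rw [← intervalIntegral.integral_of_le (by linarith)] at h1
  have h2 := moment hP k hσ x H hH
  have h3 : (volume.restrict (Set.Ioc x (x + H))).real {t | δ ≤ ‖SS P σ t‖} ≤
      (volume.restrict (Set.Ioc x (x + H))).real {t | δ ^ (2 * k) ≤ ‖SS P σ t‖ ^ (2 * k)} := by
    apply measureReal_mono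
    · intro t ht
      exact pow_le_pow_left₀ hδ.le ht _
    · exact (measure_lt_top _ _).ne
  have h4 : 0 < δ ^ (2 * k) := by positivity
  have h5 : (volume.restrict (Set.Ioc x (x + H))).real {t | δ ^ (2 * k) ≤ ‖SS P σ t‖ ^ (2 * k)} ≤
      (1 / δ) ^ (2 * k) * ∫ t in x..(x + H), ‖SS P σ t‖ ^ (2 * k) := by
    rw [one_div, inv_pow, inv_mul_eq_div, le_div_iff₀ h4, mul_comm]
    exact h1
  refine h3.trans (h5.trans ?_)
  exact mul_le_mul_of_nonneg_left h2 (by positivity)

/-- a real number, as a function of `B`, which tends to `1 / A` -/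
lemma tendsto_gg (A : ℝ) (hA : 0 < A) :
    Tendsto (fun B : ℝ => Real.log B / (A * Real.log B - Real.log 2) +
      8 / Real.sqrt (A * Real.log B - Real.log 2) + 1 / (A * Real.log B - Real.log 2) +
      Real.log B / B + 1 / B) atTop (𝓝 (1 / A)) := by
  have hl : Tendsto Real.log atTop atTop := Real.tendsto_log_atTop
  have hD : Tendsto (fun L : ℝ => A * Real.log L - Real.log 2) atTop atTop :=
    tendsto_atTop_add_const_right _ _ (hl.const_mul_atTop hA)
  have h1 : Tendsto (fun L : ℝ => Real.log L / (A * Real.log L - Real.log 2)) atTop (𝓝 (1 / A)) := by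
    have h2 : Tendsto (fun L : ℝ => 1 / (A - Real.log 2 / Real.log L)) atTop (𝓝 (1 / (A - 0))) := by
      apply Tendsto.div tendsto_const_nhds
      · exact tendsto_const_nhds.sub (hl.const_div_atTop _)
      · simpa using hA.ne'
    rw [sub_zero] at h2
    refine h2.congr' ?_
    filter_upwards [eventually_gt_atTop 1] with L hL
    have h3 : 0 < Real.log L := Real.log_pos hL
    have h4 : A - Real.log 2 / Real.log L = (A * Real.log L - Real.log 2) / Real.log L := by
      field_simp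
    rw [h4, one_div_div]
  have h2 : Tendsto (fun L : ℝ => 8 / Real.sqrt (A * Real.log L - Real.log 2)) atTop (𝓝 0) :=
    (Real.tendsto_sqrt_atTop.comp hD).const_div_atTop 8
  have h3 : Tendsto (fun L : ℝ => 1 / (A * Real.log L - Real.log 2)) atTop (𝓝 0) :=
    hD.const_div_atTop 1
  have h4 : Tendsto (fun L : ℝ => Real.log L / L) atTop (𝓝 0) := by
    have := (isLittleO_log_rpow_atTop (r := 1) one_pos).tendsto_div_nhds_zero
    simpa using this
  have h5 : Tendsto (fun L : ℝ => 1 / L) atTop (𝓝 0) := tendsto_id.const_div_atTop 1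
  have := (((h1.add h2).add h3).add h4).add h5
  simpa [div_eq_mul_inv] using this

/-- **The main asymptotic estimate.** -/
theorem asym (A η : ℝ) (hA : 0 < A) (hη : 0 < η) :
    ∀ᶠ B : ℝ in atTop, ∀ L : ℝ, B ≤ L → ∀ P : ℕ, B ^ A / 2 ≤ P → (P : ℝ) ≤ Real.exp (L ^ 12) →
      ∀ H : ℝ, 0 ≤ H → H ≤ 4 * Real.exp B →
      (1 / (1 / Real.log P ^ 2)) ^ (2 * ⌈B / Real.log P⌉₊) *
        ((H + 4 * (2 * P : ℝ) ^ ⌈B / Real.log P⌉₊ *
          (1 + ⌈B / Real.log P⌉₊ * Real.log (2 * P))) *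
        (⌈B / Real.log P⌉₊.factorial * (1 / P : ℝ) ^ ⌈B / Real.log P⌉₊)) ≤
      L ^ 63 * Real.exp ((1 / A + η) * B) := by
  have hl : Tendsto Real.log atTop atTop := Real.tendsto_log_atTop
  have hD : Tendsto (fun L : ℝ => A * Real.log L - Real.log 2) atTop atTop :=
    tendsto_atTop_add_const_right _ _ (hl.const_mul_atTop hA)
  have hg := (tendsto_gg A hA).eventually (ge_mem_nhds (show 1 / A < 1 / A + η by linarith))
  filter_upwards [hg, hD.eventually_ge_atTop 4, eventually_ge_atTop 100] with B hg hD4 hB100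
  intro L hBL P hP1 hP2 H hH0 hH4
  have hL100 : 100 ≤ L := hB100.trans hBL
  set ℓ : ℝ := Real.log L with hℓ
  set b : ℝ := Real.log B with hb
  set D : ℝ := A * b - Real.log 2 with hDdef
  set Λ : ℝ := Real.log P with hΛ
  set k : ℕ := ⌈B / Λ⌉₊ with hk
  have hL0 : 0 < L := by linarith
  have hB0 : 0 < B := by linarith
  have hb0 : 0 ≤ b := Real.log_nonneg (by linarith)
  have hbℓ : b ≤ ℓ := Real.log_le_log hB0 hBL
  have hP0 : (0 : ℝ) < P := lt_of_lt_of_le (by positivity) hP1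
  have hDΛ : D ≤ Λ := by
    have h1 : Real.log (B ^ A / 2) ≤ Λ := Real.log_le_log (by positivity) hP1
    rw [Real.log_div (by positivity) (by norm_num), Real.log_rpow hB0] at h1
    exact h1
  have hΛ4 : 4 ≤ Λ := hD4.trans hDΛ
  have hΛ12 : Λ ≤ L ^ 12 := by
    have := Real.log_le_log hP0 hP2
    rwa [Real.log_exp] at this
  have hΛ0 : 0 < Λ := by linarith
  have hD0 : 0 < D := by linarith
  have hk1 : B / Λ ≤ k := Nat.le_ceil _
  have hk2 : (k : ℝ) < B / Λ + 1 := Nat.ceil_lt_add_one (by positivity)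
  have hk3 : B / Λ ≤ B / D := div_le_div_of_nonneg_left hB0.le hD0 hDΛ
  have hk4 : (k : ℝ) ≤ B / D + 1 := by linarith
  have hk5 : (k : ℝ) ≤ B := by
    have : B / D ≤ B / 4 := div_le_div_of_nonneg_left hB0.le (by norm_num) hD4
    linarith
  have hkpos : 1 ≤ k := by
    rw [Nat.one_le_iff_ne_zero, hk]
    have : 0 < ⌈B / Λ⌉₊ := Nat.ceil_pos.2 (by positivity)
    omega
  have hkr : (1 : ℝ) ≤ k := by exact_mod_cast hkpos
  -- the exponent
  have e1 : (k : ℝ) * Real.log k ≤ B * (b / D) + b := by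
    have h1 : Real.log k ≤ b := Real.log_le_log (by linarith) hk5
    calc (k : ℝ) * Real.log k ≤ (B / D + 1) * b := by
          apply mul_le_mul hk4 h1 (Real.log_nonneg hkr)
          positivity
      _ = _ := by ring
  have e2 : 4 * (k : ℝ) * Real.log Λ ≤ B * (8 / Real.sqrt D) + 48 * ℓ := by
    have h1 : Real.log Λ ≤ 2 * Real.sqrt Λ := by
      have := Real.log_le_sub_one_of_pos (Real.sqrt_pos.2 hΛ0)
      rw [Real.log_sqrt hΛ0.le] at this
      linarith
    have h2 : Real.log Λ ≤ 12 * ℓ := by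
      have := Real.log_le_log hΛ0 hΛ12
      rw [Real.log_pow] at this
      exact_mod_cast this
    have h3 : 0 ≤ Real.log Λ := Real.log_nonneg (by linarith)
    have h4 : B / Λ * Real.log Λ ≤ B * (2 / Real.sqrt D) := by
      calc B / Λ * Real.log Λ ≤ B / Λ * (2 * Real.sqrt Λ) :=
            mul_le_mul_of_nonneg_left h1 (by positivity)
        _ = B * (2 / Real.sqrt Λ) := by
            have : Λ = Real.sqrt Λ * Real.sqrt Λ := (Real.mul_self_sqrt hΛ0.le).symm
            have h5 : 0 < Real.sqrt Λ := Real.sqrt_pos.2 hΛ0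
            rw [div_mul_eq_mul_div, div_eq_iff hΛ0.ne']
            nth_rewrite 3 [this]
            field_simp
        _ ≤ B * (2 / Real.sqrt D) := by
            apply mul_le_mul_of_nonneg_left _ hB0.le
            exact div_le_div_of_nonneg_left (by norm_num) (Real.sqrt_pos.2 hD0)
              (Real.sqrt_le_sqrt hDΛ)
    calc 4 * (k : ℝ) * Real.log Λ ≤ 4 * (B / Λ + 1) * Real.log Λ :=
          mul_le_mul_of_nonneg_right (by linarith) h3
      _ = 4 * (B / Λ * Real.log Λ) + 4 * Real.log Λ := by ring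
      _ ≤ 4 * (B * (2 / Real.sqrt D)) + 4 * (12 * ℓ) := by linarith
      _ = _ := by ring
  have e3 : (k : ℝ) * Real.log 2 ≤ B * (1 / D) + 1 := by
    have h1 : Real.log 2 ≤ 1 := by
      have := Real.log_two_lt_d9
      linarith
    calc (k : ℝ) * Real.log 2 ≤ k * 1 := mul_le_mul_of_nonneg_left h1 (by linarith)
      _ ≤ B / D + 1 := by linarith
      _ = _ := by ring
  have e4 : Real.log (8 * (1 + k * (Λ + 1))) ≤ 15 * ℓ := by
    have h1 : 8 * (1 + k * (Λ + 1)) ≤ L ^ 15 := by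
      have h2 : (k : ℝ) * (Λ + 1) ≤ L * (L ^ 12 + 1) :=
        mul_le_mul (hk5.trans hBL) (by linarith) (by linarith) hL0.le
      have h3 : (1 : ℝ) ≤ L ^ 12 := one_le_pow₀ (by linarith)
      have h4 : L * (L ^ 12 + 1) ≤ L * (2 * L ^ 12) := by
        apply mul_le_mul_of_nonneg_left _ hL0.le
        linarith
      have h5 : L * (2 * L ^ 12) = 2 * L ^ 13 := by ring
      have h6 : (1 : ℝ) ≤ L ^ 13 := one_le_pow₀ (by linarith)
      have h7 : L ^ 15 = L ^ 2 * L ^ 13 := by ring
      have h8 : (100 : ℝ) ^ 2 ≤ L ^ 2 := by gcongr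
      have h9 : (100 : ℝ) ^ 2 * L ^ 13 ≤ L ^ 2 * L ^ 13 :=
        mul_le_mul_of_nonneg_right h8 (by positivity)
      rw [h7]
      linarith
    calc Real.log (8 * (1 + k * (Λ + 1))) ≤ Real.log (L ^ 15) :=
          Real.log_le_log (by positivity) h1
      _ = 15 * ℓ := by rw [Real.log_pow, ← hℓ]; norm_num
  -- the product
  have p1 : (1 / (1 / Λ ^ 2)) ^ (2 * k) = Real.exp (4 * k * Real.log Λ) := by
    rw [one_div_one_div, ← pow_mul, ← Real.exp_log (show 0 < Λ ^ (2 * (2 * k)) by positivity),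
      Real.log_pow]
    congr 1
    push_cast
    ring
  have p2 : (k.factorial : ℝ) ≤ Real.exp (k * Real.log k) := by
    have h1 : (k.factorial : ℝ) ≤ (k : ℝ) ^ k := by exact_mod_cast Nat.factorial_le_pow k
    rw [← Real.log_pow, Real.exp_log (by positivity)]
    exact h1
  have p3 : (1 / P : ℝ) ^ k ≤ Real.exp (-B) := by
    rw [one_div, inv_pow, Real.exp_neg]
    apply inv_anti₀ (Real.exp_pos _)
    calc Real.exp B ≤ Real.exp (k * Λ) := by
          rw [Real.exp_le_exp]
          rwa [div_le_iff₀ hΛ0] at hk1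
      _ = (P : ℝ) ^ k := by
          rw [hΛ, ← Real.log_pow, Real.exp_log (by positivity)]
  have p4 : (H + 4 * (2 * P : ℝ) ^ k * (1 + k * Real.log (2 * P))) * (1 / P : ℝ) ^ k ≤
      2 ^ k * (8 * (1 + k * (Λ + 1))) := by
    have h1 : H * (1 / P : ℝ) ^ k ≤ 4 := by
      calc H * (1 / P : ℝ) ^ k ≤ (4 * Real.exp B) * Real.exp (-B) :=
            mul_le_mul hH4 p3 (by positivity) (by positivity)
        _ = 4 := by rw [mul_assoc, ← Real.exp_add]; simp
    have h2 : (2 * P : ℝ) ^ k * (1 / P : ℝ) ^ k = 2 ^ k := by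
      rw [← mul_pow]
      congr 1
      field_simp
    have h3 : Real.log (2 * P) ≤ Λ + 1 := by
      rw [Real.log_mul (by norm_num) hP0.ne']
      have := Real.log_two_lt_d9
      linarith
    have h4 : (1 : ℝ) ≤ 2 ^ k := one_le_pow₀ (by norm_num)
    calc (H + 4 * (2 * P : ℝ) ^ k * (1 + k * Real.log (2 * P))) * (1 / P : ℝ) ^ k =
        H * (1 / P : ℝ) ^ k + 4 * ((2 * P : ℝ) ^ k * (1 / P : ℝ) ^ k) *
          (1 + k * Real.log (2 * P)) := by ring
      _ ≤ 4 + 4 * 2 ^ k * (1 + k * (Λ + 1)) := by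
          rw [h2]
          have h5 : 4 * (2 : ℝ) ^ k * (1 + k * Real.log (2 * P)) ≤
              4 * 2 ^ k * (1 + k * (Λ + 1)) := by
            apply mul_le_mul_of_nonneg_left _ (by positivity)
            have := mul_le_mul_of_nonneg_left h3 (show (0 : ℝ) ≤ k by linarith)
            linarith
          linarith
      _ ≤ 4 * 2 ^ k * (1 + k * (Λ + 1)) + 4 * 2 ^ k * (1 + k * (Λ + 1)) := by
          have h6 : (1 : ℝ) ≤ 1 + k * (Λ + 1) := by
            have : 0 ≤ (k : ℝ) * (Λ + 1) := by positivity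
            linarith
          have h7 : 1 ≤ (2 : ℝ) ^ k * (1 + k * (Λ + 1)) := one_le_mul_of_one_le_of_one_le h4 h6
          linarith
      _ = _ := by ring
  have p5 : (2 : ℝ) ^ k = Real.exp (k * Real.log 2) := by
    rw [← Real.log_pow, Real.exp_log (by positivity)]
  have p6 : 8 * (1 + k * (Λ + 1)) = Real.exp (Real.log (8 * (1 + k * (Λ + 1)))) := by
    rw [Real.exp_log (by positivity)]
  have hfin : 4 * k * Real.log Λ + (k * Real.log k + (k * Real.log 2 +
      Real.log (8 * (1 + k * (Λ + 1))))) ≤ 63 * ℓ + (1 / A + η) * B := by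
    have h1 : (b / D + 8 / Real.sqrt D + 1 / D + b / B + 1 / B) * B ≤
        (1 / A + η) * B := mul_le_mul_of_nonneg_right hg hB0.le
    have h2 : (b / D + 8 / Real.sqrt D + 1 / D + b / B + 1 / B) * B =
        B * (b / D) + B * (8 / Real.sqrt D) + B * (1 / D) + b + 1 := by
      field_simp
    rw [h2] at h1
    linarith
  have hL63 : L ^ 63 = Real.exp (63 * ℓ) := by
    rw [← Real.exp_log (show 0 < L ^ 63 by positivity), Real.log_pow, hℓ]
    norm_num
  calc (1 / (1 / Λ ^ 2)) ^ (2 * k) * ((H + 4 * (2 * P : ℝ) ^ k * (1 + k * Real.log (2 * P))) *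
        (k.factorial * (1 / P : ℝ) ^ k)) =
      (1 / (1 / Λ ^ 2)) ^ (2 * k) * (k.factorial *
        ((H + 4 * (2 * P : ℝ) ^ k * (1 + k * Real.log (2 * P))) * (1 / P : ℝ) ^ k)) := by ring
    _ ≤ Real.exp (4 * k * Real.log Λ) * (Real.exp (k * Real.log k) *
        (2 ^ k * (8 * (1 + k * (Λ + 1))))) := by
        rw [p1]
        apply mul_le_mul_of_nonneg_left _ (Real.exp_nonneg _)
        apply mul_le_mul p2 p4 _ (Real.exp_nonneg _)
        have h2P : 0 ≤ Real.log (2 * P) := by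
          rw [Real.log_mul (by norm_num) hP0.ne']
          have := Real.log_two_gt_d9
          linarith
        positivity
    _ = Real.exp (4 * k * Real.log Λ + (k * Real.log k + (k * Real.log 2 +
        Real.log (8 * (1 + k * (Λ + 1)))))) := by
        rw [p5, Real.exp_add, Real.exp_add, Real.exp_add, ← p6]
    _ ≤ Real.exp (63 * ℓ + (1 / A + η) * B) := Real.exp_le_exp.2 hfin
    _ = L ^ 63 * Real.exp ((1 / A + η) * B) := by rw [Real.exp_add, hL63]

end Pool.Agent.H.MP_2e4794_nt.ZM
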