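import Pool.Agent.H.MP_2e4794_nt.ZM.M3c
import Pool.Agent.H.MP_2e4794_nt.ZM.Asy

/-!
# The zeta function at a point where all short prime sums are small
-/

namespace Pool.Agent.H.MP_2e4794_nt.ZM

open Finset Filter Topology

/-! ### Tails -/

lemma step_rpow {h : ℝ} (hh : 0 < h) {M : ℕ} (hM : 1 ≤ M) :
    ((M + 1 : ℕ) : ℝ) ^ (-(1 + h)) ≤ 1 / h * ((M : ℝ) ^ (-h) - ((M + 1 : ℕ) : ℝ) ^ (-h)) := by
  have hM1 : (1 : ℝ) ≤ M := by exact_mod_cast hM
  have hn0 : (0 : ℝ) < ((M + 1 : ℕ) : ℝ) := by positivity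
  set n : ℝ := ((M + 1 : ℕ) : ℝ) with hn
  have hnM : (M : ℝ) = n * (1 - 1 / n) := by
    rw [mul_sub, mul_one_div_cancel hn0.ne', hn]
    push_cast
    ring
  have h2 : 0 < 1 - 1 / n := by
    have : (2 : ℝ) ≤ n := by rw [hn]; push_cast; linarith
    have h3 : 1 / n ≤ 1 / 2 := one_div_le_one_div_of_le (by norm_num) this
    linarith
  have h3 : 1 + h / n ≤ (1 - 1 / n) ^ (-h) := by
    rw [Real.rpow_def_of_pos h2]
    have h4 := Real.log_le_sub_one_of_pos h2
    have h5 : h / n ≤ Real.log (1 - 1 / n) * -h := by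
      have h6 : Real.log (1 - 1 / n) ≤ -(1 / n) := by linarith
      have h7 : h * (1 / n) ≤ h * -Real.log (1 - 1 / n) :=
        mul_le_mul_of_nonneg_left (by linarith) hh.le
      calc h / n = h * (1 / n) := by ring
        _ ≤ h * -Real.log (1 - 1 / n) := h7
        _ = _ := by ring
    have h8 := Real.add_one_le_exp (h / n)
    have h9 := Real.exp_le_exp.2 h5
    linarith
  rw [hnM, Real.mul_rpow hn0.le h2.le]
  have h4 : 0 < n ^ (-h) := by positivity
  have h5 : n ^ (-h) * (1 + h / n) ≤ n ^ (-h) * (1 - 1 / n) ^ (-h) :=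
    mul_le_mul_of_nonneg_left h3 h4.le
  have h6 : n ^ (-(1 + h)) = n ^ (-h) * (1 / n) := by
    rw [show -(1 + h) = -h + -1 by ring, Real.rpow_add hn0, Real.rpow_neg_one, one_div]
  rw [h6]
  calc n ^ (-h) * (1 / n) = 1 / h * (n ^ (-h) * (1 + h / n) - n ^ (-h)) := by
        field_simp
        ring
    _ ≤ _ := by
        apply mul_le_mul_of_nonneg_left _ (by positivity)
        linarith

lemma tail_rpow {h : ℝ} (hh : 0 < h) {X : ℕ} (hX : 1 ≤ X) (M : ℕ) :
    ∑ n ∈ Ioc X M, (n : ℝ) ^ (-(1 + h)) ≤ 1 / h * (X : ℝ) ^ (-h) := by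
  have key : ∀ M : ℕ, X ≤ M →
      ∑ n ∈ Ioc X M, (n : ℝ) ^ (-(1 + h)) ≤ 1 / h * ((X : ℝ) ^ (-h) - (M : ℝ) ^ (-h)) := by
    intro M hM
    induction M, hM using Nat.le_induction with
    | base => simp
    | succ M hM ih =>
      rw [Finset.sum_Ioc_succ_top (by omega)]
      have h1 := step_rpow hh (M := M) (by omega)
      have h2 : 1 / h * ((X : ℝ) ^ (-h) - ((M + 1 : ℕ) : ℝ) ^ (-h)) =
          1 / h * ((X : ℝ) ^ (-h) - (M : ℝ) ^ (-h)) +
          1 / h * ((M : ℝ) ^ (-h) - ((M + 1 : ℕ) : ℝ) ^ (-h)) := by ring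
      rw [h2]
      exact add_le_add ih h1
  rcases le_or_gt X M with hM | hM
  · refine (key M hM).trans ?_
    apply mul_le_mul_of_nonneg_left _ (by positivity)
    have : 0 ≤ (M : ℝ) ^ (-h) := by positivity
    linarith
  · have : Ioc X M = ∅ := Finset.Ioc_eq_empty (by omega)
    rw [this, sum_empty]
    positivity

lemma tail_primes {σ t : ℝ} (hσ : 1 < σ) {X : ℕ} (hX : 1 ≤ X) (M : ℕ) :
    ‖∑ p ∈ prs X M, (p : ℂ) ^ (-(σ + t * Complex.I))‖ ≤ 1 / (σ - 1) * (X : ℝ) ^ (-(σ - 1)) := by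
  refine (norm_sum_le _ _).trans ?_
  refine le_trans ?_ (tail_rpow (sub_pos.2 hσ) hX M)
  have h1 : ∑ p ∈ prs X M, ‖(p : ℂ) ^ (-(σ + t * Complex.I))‖ =
      ∑ p ∈ prs X M, (p : ℝ) ^ (-(1 + (σ - 1))) := by
    apply sum_congr rfl
    intro p hp
    rw [mem_prs] at hp
    have hp0 : (0 : ℝ) < p := by exact_mod_cast hp.2.pos
    have := norm_cpow_real hp0 (-(σ + t * Complex.I))
    rw [Complex.ofReal_natCast] at this
    rw [this]
    congr 1
    simp
  rw [h1]
  exact sum_le_sum_of_subset_of_nonneg (filter_subset _ _) fun _ _ _ => by positivity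

lemma sum_split {y : ℕ} (z : ℕ → ℂ) (J : ℕ) :
    ∑ p ∈ prs y (y * 2 ^ J), z p = ∑ j ∈ range J, ∑ p ∈ prs (y * 2 ^ j) (2 * (y * 2 ^ j)), z p := by
  induction J with
  | zero =>
    have : prs y (y * 2 ^ 0) = ∅ := by
      ext p
      simp only [mem_prs, notMem_empty, iff_false]
      rintro ⟨⟨h1, h2⟩, _⟩
      simp at h2
      omega
    rw [this]
    simp
  | succ J ih =>
    rw [sum_range_succ, ← ih]
    have h1 : y * 2 ^ (J + 1) = 2 * (y * 2 ^ J) := by ring
    have h0 : y ≤ y * 2 ^ J := Nat.le_mul_of_pos_right _ (by positivity)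
    rw [h1, ← sum_union]
    · apply sum_congr _ fun _ _ => rfl
      ext p
      simp only [mem_union, mem_prs]
      constructor
      · rintro ⟨⟨h2, h3⟩, h4⟩
        by_cases h5 : p ≤ y * 2 ^ J
        · exact Or.inl ⟨⟨h2, h5⟩, h4⟩
        · exact Or.inr ⟨⟨by omega, h3⟩, h4⟩
      · rintro (⟨⟨h2, h3⟩, h4⟩ | ⟨⟨h2, h3⟩, h4⟩)
        · exact ⟨⟨h2, by omega⟩, h4⟩
        · exact ⟨⟨by omega, h3⟩, h4⟩
    · rw [Finset.disjoint_left]
      intro p h6 h7
      rw [mem_prs] at h6 h7
      omega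

lemma sum_delta {a b : ℝ} (hb : 0 < b) (hab : b < a) (J : ℕ) :
    ∑ j ∈ range J, 1 / (a + j * b) ^ 2 ≤ 1 / (b * (a - b)) := by
  have key : ∀ J : ℕ, ∑ j ∈ range J, 1 / (a + j * b) ^ 2 ≤
      1 / b * (1 / (a - b) - 1 / (a + (J - 1) * b)) := by
    intro J
    induction J with
    | zero =>
      have : a + (((0 : ℕ) : ℝ) - 1) * b = a - b := by
        push_cast
        ring
      rw [this]
      simp
    | succ J ih =>
      rw [sum_range_succ]
      have hJ : (0 : ℝ) ≤ J := by positivity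
      have h1 : 0 < a + (J - 1) * b := by nlinarith
      have h2 : 0 < a + J * b := by nlinarith
      have h3 : 1 / (a + J * b) ^ 2 ≤ 1 / b * (1 / (a + (J - 1) * b) - 1 / (a + J * b)) := by
        have h4 : 1 / b * (1 / (a + (J - 1) * b) - 1 / (a + J * b)) =
            1 / ((a + (J - 1) * b) * (a + J * b)) := by
          have h7 : 1 / (a + (J - 1) * b) - 1 / (a + J * b) =
              b / ((a + (J - 1) * b) * (a + J * b)) := by
            rw [div_sub_div _ _ h1.ne' h2.ne']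
            congr 1
            ring
          rw [h7, one_div_mul_eq_div, div_div_cancel_left' hb.ne', one_div]
        rw [h4]
        apply one_div_le_one_div_of_le (by positivity)
        nlinarith
      have h5 : (((J + 1 : ℕ) : ℝ) - 1) = J := by
        push_cast
        ring
      rw [h5]
      have h6 : 1 / b * (1 / (a - b) - 1 / (a + J * b)) =
          1 / b * (1 / (a - b) - 1 / (a + (J - 1) * b)) +
          1 / b * (1 / (a + (J - 1) * b) - 1 / (a + J * b)) := by ring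
      rw [h6]
      exact add_le_add ih h3
  refine (key J).trans ?_
  rcases Nat.eq_zero_or_pos J with rfl | hJ
  · have : a + (((0 : ℕ) : ℝ) - 1) * b = a - b := by
      push_cast
      ring
    rw [this, sub_self, mul_zero]
    apply div_nonneg zero_le_one
    apply mul_nonneg hb.le
    linarith
  · have hJ1 : (1 : ℝ) ≤ J := by exact_mod_cast hJ
    have h1 : 0 ≤ 1 / (a + (J - 1) * b) := by
      apply div_nonneg zero_le_one
      nlinarith
    calc 1 / b * (1 / (a - b) - 1 / (a + (J - 1) * b)) ≤ 1 / b * (1 / (a - b)) := by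
          apply mul_le_mul_of_nonneg_left _ (by positivity)
          linarith
      _ = 1 / (b * (a - b)) := by
          rw [one_div_mul_one_div]

/-! ### Parameters -/

/-- the first prime cut -/
noncomputable def yy (A L : ℝ) : ℕ := ⌊L ^ A⌋₊

/-- the number of dyadic blocks -/
noncomputable def JJ (L : ℝ) : ℕ := ⌈2 * L ^ 11⌉₊

/-- the abscissa -/
noncomputable def sg (L : ℝ) : ℝ := 1 + 1 / L ^ 10

lemma tendsto_yy {A : ℝ} (hA : 0 < A) : Tendsto (yy A) atTop atTop :=
  tendsto_nat_floor_atTop.comp (tendsto_rpow_atTop hA)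

lemma log_yy_le {A L : ℝ} (hL : 0 < L) (hy : 1 ≤ yy A L) :
    Real.log (yy A L) ≤ A * Real.log L := by
  rw [← Real.log_rpow hL]
  apply Real.log_le_log (by exact_mod_cast hy)
  exact Nat.floor_le (by positivity)

/-- **A good point.** -/
theorem good_point {A θ : ℝ} (hA : 0 < A) (hθ : 1 < θ) :
    ∀ᶠ B : ℝ in atTop, ∀ L : ℝ, B ≤ L → ∀ t : ℝ,
      (∀ j < JJ L, ‖SS (yy A B * 2 ^ j) (sg L) t‖ < 1 / Real.log ((yy A B * 2 ^ j : ℕ) : ℝ) ^ 2) →
      ‖riemannZeta (sg L + t * Complex.I)‖ ≤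
        θ * (Real.exp Real.eulerMascheroniConstant * (A * Real.log B)) ∧
      1 ≤ ‖riemannZeta (sg L + t * Complex.I)‖ *
        (θ * (6 / Real.pi ^ 2 * Real.exp Real.eulerMascheroniConstant * (A * Real.log B))) := by
  set θ' : ℝ := Real.sqrt θ with hθ'
  have hθ'1 : 1 < θ' := by
    rw [hθ', Real.lt_sqrt (by norm_num)]
    simpa using hθ
  have hθθ : θ' * θ' = θ := Real.mul_self_sqrt (by linarith)
  set c1 : ℝ := Real.exp Real.eulerMascheroniConstant with hc1
  set c2 : ℝ := 6 / Real.pi ^ 2 * Real.exp Real.eulerMascheroniConstant with hc2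
  have hc1p : 0 < c1 := Real.exp_pos _
  have hc2p : 0 < c2 := by positivity
  have m1 := (mertens_minus.comp (tendsto_yy hA)).eventually
    (gt_mem_nhds (show c1 < θ' * c1 by nlinarith))
  have m2 := (mertens_plus.comp (tendsto_yy hA)).eventually
    (gt_mem_nhds (show c2 < θ' * c2 by nlinarith))
  have hE : Tendsto (fun L : ℝ => 3 / Real.log (yy A L) + 1 / (yy A L : ℝ)) atTop (𝓝 0) := by
    have e1 : Tendsto (fun L : ℝ => 3 / Real.log (yy A L)) atTop (𝓝 0) :=
      ((Real.tendsto_log_atTop.comp tendsto_natCast_atTop_atTop).comp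
        (tendsto_yy hA)).const_div_atTop 3
    have e3 : Tendsto (fun L : ℝ => 1 / (yy A L : ℝ)) atTop (𝓝 0) :=
      (tendsto_natCast_atTop_atTop.comp (tendsto_yy hA)).const_div_atTop 1
    simpa using e1.add e3
  have hE' := hE.eventually (gt_mem_nhds (show 0 < Real.log θ' / 2 from
    half_pos (Real.log_pos hθ'1)))
  obtain ⟨L0, hL0'⟩ := eventually_atTop.1 ((Real.tendsto_pow_mul_exp_neg_atTop_nhds_zero 10).eventually
    (gt_mem_nhds (show 0 < Real.log θ' / 2 from half_pos (Real.log_pos hθ'1))))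
  have hy := (tendsto_yy hA).eventually_ge_atTop 100000
  filter_upwards [m1, m2, hE', hy, eventually_ge_atTop 10, eventually_ge_atTop L0] with
    B m1 m2 hE' hy hB10 hBL0 L hBL t hgood
  have hL0 : 0 < L := by linarith
  have hB0 : 0 < B := by linarith
  have hL10 : 10 ≤ L := by linarith
  have hEL := hL0' L (by linarith)
  set y : ℕ := yy A B with hydef
  have hy1 : (100000 : ℝ) ≤ y := by exact_mod_cast hy
  have hlogy : 10 ≤ Real.log y := by
    rw [Real.le_log_iff_exp_le (by linarith)]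
    have h1 : Real.exp 10 = Real.exp 1 ^ 10 := by
      rw [← Real.exp_nat_mul]
      norm_num
    rw [h1]
    have h2 := Real.exp_one_lt_d9
    have h3 : Real.exp 1 ^ 10 ≤ (2.72 : ℝ) ^ 10 := by
      apply pow_le_pow_left₀ (Real.exp_pos 1).le
      linarith
    refine h3.trans (le_trans ?_ hy1)
    norm_num
  have hlogy2 := log_yy_le hB0 (show 1 ≤ yy A B by omega)
  rw [← hydef] at hlogy2
  have hσ : 1 < sg L := by
    unfold sg
    have : 0 < 1 / L ^ 10 := by positivity
    linarith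
  have hσ1 : sg L - 1 = 1 / L ^ 10 := by
    unfold sg
    ring
  set X : ℕ := y * 2 ^ JJ L with hX
  have hX1 : 1 ≤ X := by
    rw [hX]
    exact Nat.mul_pos (by omega) (by positivity)
  have hlogX : L ^ 11 ≤ Real.log X := by
    have h1 : (X : ℝ) = y * 2 ^ JJ L := by
      rw [hX]
      push_cast
      ring
    rw [h1, Real.log_mul (by linarith) (by positivity), Real.log_pow]
    have h2 : 2 * L ^ 11 ≤ JJ L := Nat.le_ceil _
    have h3 := Real.log_two_gt_d9
    have h4 : 2 * L ^ 11 * (1 / 2) ≤ JJ L * Real.log 2 := by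
      apply mul_le_mul h2 (by linarith) (by norm_num) (by positivity)
    linarith
  have htail : ∀ M : ℕ, ‖∑ p ∈ prs X M, (p : ℂ) ^ (-(sg L + t * Complex.I))‖ ≤
      L ^ 10 * Real.exp (-L) := by
    intro M
    refine (tail_primes hσ hX1 M).trans ?_
    rw [hσ1, one_div_one_div]
    apply mul_le_mul_of_nonneg_left _ (by positivity)
    rw [Real.rpow_def_of_pos (by exact_mod_cast hX1), Real.exp_le_exp]
    have h1 : L ^ 11 * (1 / L ^ 10) = L := by
      field_simp
    have h2 : L ^ 11 * (1 / L ^ 10) ≤ Real.log X * (1 / L ^ 10) :=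
      mul_le_mul_of_nonneg_right hlogX (by positivity)
    rw [h1] at h2
    linarith
  have hdelta : ∑ j ∈ range (JJ L), 1 / Real.log ((y * 2 ^ j : ℕ) : ℝ) ^ 2 ≤ 3 / Real.log y := by
    have h1 : ∀ j ∈ range (JJ L), 1 / Real.log ((y * 2 ^ j : ℕ) : ℝ) ^ 2 =
        1 / (Real.log y + j * Real.log 2) ^ 2 := by
      intro j _
      push_cast
      rw [Real.log_mul (by linarith) (by positivity), Real.log_pow]
    rw [sum_congr rfl h1]
    have hl := Real.log_two_gt_d9
    have hl' := Real.log_two_lt_d9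
    refine (sum_delta (by linarith) (by linarith) _).trans ?_
    rw [div_le_div_iff₀ (by nlinarith) (by linarith)]
    nlinarith
  have hsum : ∀ M : ℕ, X ≤ M → ‖∑ p ∈ prs y M, (p : ℂ) ^ (-(sg L + t * Complex.I))‖ ≤
      3 / Real.log y + L ^ 10 * Real.exp (-L) := by
    intro M hM
    have hyX : y ≤ X := Nat.le_mul_of_pos_right _ (by positivity)
    have h1 : ∑ p ∈ prs y M, (p : ℂ) ^ (-(sg L + t * Complex.I)) =
        ∑ p ∈ prs y X, (p : ℂ) ^ (-(sg L + t * Complex.I)) +
        ∑ p ∈ prs X M, (p : ℂ) ^ (-(sg L + t * Complex.I)) := by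
      rw [← sum_union]
      · apply sum_congr _ fun _ _ => rfl
        ext p
        simp only [mem_union, mem_prs]
        constructor
        · rintro ⟨⟨h2, h3⟩, h4⟩
          by_cases h5 : p ≤ X
          · exact Or.inl ⟨⟨h2, h5⟩, h4⟩
          · exact Or.inr ⟨⟨by omega, h3⟩, h4⟩
        · rintro (⟨⟨h2, h3⟩, h4⟩ | ⟨⟨h2, h3⟩, h4⟩)
          · exact ⟨⟨h2, by omega⟩, h4⟩
          · exact ⟨⟨by omega, h3⟩, h4⟩
      · rw [Finset.disjoint_left]
        intro p h6 h7
        rw [mem_prs] at h6 h7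
        omega
    rw [h1]
    refine (norm_add_le _ _).trans (add_le_add ?_ (htail M))
    rw [hX, sum_split]
    refine (norm_sum_le _ _).trans (le_trans ?_ hdelta)
    apply sum_le_sum
    intro j hj
    rw [mem_range] at hj
    exact (hgood j hj).le
  have hre : 1 < ((sg L : ℂ) + t * Complex.I).re := by simpa using hσ
  obtain ⟨b1, b2⟩ := euler_bounds hre (y := y) (M0 := X) (by omega) hsum
  simp only [Function.comp] at m1 m2
  rw [← hydef] at m1 m2
  rw [div_lt_iff₀ (by linarith)] at m1 m2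
  have hex : Real.exp (3 / Real.log y + L ^ 10 * Real.exp (-L) + 1 / y) ≤ θ' := by
    rw [← Real.exp_log (show 0 < θ' by linarith), Real.exp_le_exp]
    linarith
  have hprodpos : 0 ≤ ∏ p ∈ prs 0 y, (1 - 1 / (p : ℝ))⁻¹ := by
    rw [prod_eq_exp]
    exact (Real.exp_pos _).le
  have hprodpos' : 0 ≤ ∏ p ∈ prs 0 y, (1 + 1 / (p : ℝ)) := prod_nonneg fun _ _ => by positivity
  constructor
  · refine b1.trans ?_
    calc (∏ p ∈ prs 0 y, (1 - 1 / (p : ℝ))⁻¹) *
          Real.exp (3 / Real.log y + L ^ 10 * Real.exp (-L) + 1 / y) ≤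
        (θ' * c1 * Real.log y) * θ' := mul_le_mul m1.le hex (Real.exp_pos _).le (by positivity)
      _ = θ * (c1 * Real.log y) := by rw [← hθθ]; ring
      _ ≤ θ * (c1 * (A * Real.log B)) := by
          apply mul_le_mul_of_nonneg_left _ (by linarith)
          exact mul_le_mul_of_nonneg_left hlogy2 hc1p.le
  · have h1 : 1 ≤ Real.exp (-(3 / Real.log y + L ^ 10 * Real.exp (-L) + 1 / y)) * θ' := by
      rw [Real.exp_neg, inv_mul_eq_div, le_div_iff₀ (Real.exp_pos _), one_mul]
      exact hex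
    calc 1 ≤ Real.exp (-(3 / Real.log y + L ^ 10 * Real.exp (-L) + 1 / y)) * θ' := h1
      _ ≤ (‖riemannZeta (sg L + t * Complex.I)‖ * ∏ p ∈ prs 0 y, (1 + 1 / (p : ℝ))) * θ' :=
          mul_le_mul_of_nonneg_right b2 (by linarith)
      _ ≤ (‖riemannZeta (sg L + t * Complex.I)‖ * (θ' * c2 * Real.log y)) * θ' := by
          apply mul_le_mul_of_nonneg_right _ (by linarith)
          exact mul_le_mul_of_nonneg_left m2.le (norm_nonneg _)
      _ = ‖riemannZeta (sg L + t * Complex.I)‖ * (θ * (c2 * Real.log y)) := by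
          rw [← hθθ]
          ring
      _ ≤ _ := by
          apply mul_le_mul_of_nonneg_left _ (norm_nonneg _)
          apply mul_le_mul_of_nonneg_left _ (by linarith)
          exact mul_le_mul_of_nonneg_left hlogy2 hc2p.le

end Pool.Agent.H.MP_2e4794_nt.ZM
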