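import Mathlib

/-!
# The mean value theorem for Dirichlet polynomials, elementary form
-/

namespace Pool.Agent.H.MP_2e4794_nt.ZM

open Finset Filter Topology MeasureTheory intervalIntegral

lemma abs_log_sub_ge {m n N : ℕ} (hm : 1 ≤ m) (hn : 1 ≤ n) (hmN : m ≤ N) (hnN : n ≤ N) :
    |(m : ℝ) - n| / N ≤ |Real.log m - Real.log n| := by
  wlog h : n ≤ m generalizing m n with H
  · rw [abs_sub_comm, abs_sub_comm (Real.log m)]
    exact H hn hm hnN hmN (by omega)
  have hn1 : (1 : ℝ) ≤ n := by exact_mod_cast hn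
  have hmn : (n : ℝ) ≤ m := by exact_mod_cast h
  have hmN' : (m : ℝ) ≤ N := by exact_mod_cast hmN
  rw [abs_of_nonneg (by linarith), abs_of_nonneg (by
    have := Real.log_le_log (by linarith) hmn
    linarith)]
  have h1 : Real.log n - Real.log m ≤ n / m - 1 := by
    rw [← Real.log_div (by linarith) (by linarith)]
    exact Real.log_le_sub_one_of_pos (div_pos (by linarith) (by linarith))
  have h2 : ((m : ℝ) - n) / N ≤ (m - n) / m :=
    div_le_div_of_nonneg_left (by linarith) (by linarith) hmN'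
  have h3 : ((m : ℝ) - n) / m = 1 - n / m := by
    rw [sub_div, div_self (by linarith)]
  linarith

lemma sum_inv_le (N : ℕ) : ∑ k ∈ Icc 1 N, (1 : ℝ) / k ≤ 1 + Real.log N := by
  have h4 := harmonic_le_one_add_log N
  rw [harmonic_eq_sum_Icc] at h4
  push_cast at h4
  simpa [one_div] using h4

lemma sum_inv_dist_le {m N : ℕ} (hm : 1 ≤ m) (hmN : m ≤ N) :
    ∑ n ∈ (Icc 1 N).erase m, 1 / |(m : ℝ) - n| ≤ 2 * (1 + Real.log N) := by
  have hsplit : (Icc 1 N).erase m = Ico 1 m ∪ Ioc m N := by
    ext n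
    simp only [mem_erase, mem_Icc, mem_union, mem_Ico, mem_Ioc]
    omega
  have hdis : Disjoint (Ico 1 m) (Ioc m N) := by
    rw [Finset.disjoint_left]
    intro n h6 h7
    simp only [mem_Ico, mem_Ioc] at h6 h7
    omega
  rw [hsplit, sum_union hdis]
  have h1 : ∑ n ∈ Ico 1 m, 1 / |(m : ℝ) - n| ≤ 1 + Real.log N := by
    calc ∑ n ∈ Ico 1 m, 1 / |(m : ℝ) - n| = ∑ n ∈ Ico 1 m, (fun k : ℕ => (1 : ℝ) / k) (m - n) := by
          apply sum_congr rfl
          intro n hn
          rw [mem_Ico] at hn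
          have : (n : ℝ) ≤ m := by exact_mod_cast hn.2.le
          simp only
          rw [abs_of_nonneg (by linarith), Nat.cast_sub hn.2.le]
      _ = ∑ k ∈ (Ico 1 m).image (fun n => m - n), (1 : ℝ) / k := by
          rw [sum_image]
          intro a ha b hb hab
          simp only [coe_Ico, Set.mem_Ico] at ha hb
          simp only at hab
          omega
      _ ≤ ∑ k ∈ Icc 1 N, (1 : ℝ) / k := by
          apply sum_le_sum_of_subset_of_nonneg
          · intro k hk
            rw [mem_image] at hk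
            obtain ⟨n, hn, rfl⟩ := hk
            rw [mem_Ico] at hn
            rw [mem_Icc]
            omega
          · intro k _ _
            positivity
      _ ≤ _ := sum_inv_le N
  have h2 : ∑ n ∈ Ioc m N, 1 / |(m : ℝ) - n| ≤ 1 + Real.log N := by
    calc ∑ n ∈ Ioc m N, 1 / |(m : ℝ) - n| = ∑ n ∈ Ioc m N, (fun k : ℕ => (1 : ℝ) / k) (n - m) := by
          apply sum_congr rfl
          intro n hn
          rw [mem_Ioc] at hn
          have : (m : ℝ) ≤ n := by exact_mod_cast hn.1.le
          simp only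
          rw [abs_sub_comm, abs_of_nonneg (by linarith), Nat.cast_sub hn.1.le]
      _ = ∑ k ∈ (Ioc m N).image (fun n => n - m), (1 : ℝ) / k := by
          rw [sum_image]
          intro a ha b hb hab
          simp only [coe_Ioc, Set.mem_Ioc] at ha hb
          simp only at hab
          omega
      _ ≤ ∑ k ∈ Icc 1 N, (1 : ℝ) / k := by
          apply sum_le_sum_of_subset_of_nonneg
          · intro k hk
            rw [mem_image] at hk
            obtain ⟨n, hn, rfl⟩ := hk
            rw [mem_Ioc] at hn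
            rw [mem_Icc]
            omega
          · intro k _ _
            positivity
      _ ≤ _ := sum_inv_le N
  linarith

/-- the exponential integral -/
lemma norm_integral_exp_le (x H l : ℝ) (hl : l ≠ 0) :
    ‖∫ t in x..(x + H), Complex.exp (-(l * Complex.I) * t)‖ ≤ 2 / |l| := by
  have hc : -(l * Complex.I) ≠ 0 := by
    rw [neg_ne_zero]
    exact mul_ne_zero (by exact_mod_cast hl) Complex.I_ne_zero
  rw [integral_exp_mul_complex hc, norm_div, norm_neg, norm_mul, Complex.norm_I, mul_one,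
    Complex.norm_real, Real.norm_eq_abs]
  apply div_le_div_of_nonneg_right _ (abs_nonneg l)
  refine (norm_sub_le _ _).trans ?_
  have h1 : ∀ y : ℝ, ‖Complex.exp (-(l * Complex.I) * y)‖ = 1 := by
    intro y
    rw [Complex.norm_exp]
    simp
  rw [h1, h1]
  norm_num

/-- **Mean value theorem.** -/
theorem mean_value (N : ℕ) (a : ℕ → ℂ) (x H : ℝ) (hH : 0 ≤ H) :
    ∫ t in x..(x + H), ‖∑ n ∈ Icc 1 N, a n * Complex.exp (-(Real.log n * Complex.I) * t)‖ ^ 2 ≤
      (H + 4 * N * (1 + Real.log N)) * ∑ n ∈ Icc 1 N, ‖a n‖ ^ 2 := by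
  set J : ℕ → ℕ → ℂ := fun m n =>
    ∫ t in x..(x + H), Complex.exp (-(((Real.log m - Real.log n : ℝ) : ℂ) * Complex.I) * t) with hJ
  have hid : (((∫ t in x..(x + H),
      ‖∑ n ∈ Icc 1 N, a n * Complex.exp (-(Real.log n * Complex.I) * t)‖ ^ 2 : ℝ)) : ℂ) =
      ∑ m ∈ Icc 1 N, ∑ n ∈ Icc 1 N, a m * (starRingEnd ℂ) (a n) * J m n := by
    rw [← intervalIntegral.integral_ofReal]
    have h1 : ∀ t : ℝ, ((‖∑ n ∈ Icc 1 N, a n *
        Complex.exp (-(Real.log n * Complex.I) * t)‖ ^ 2 : ℝ) : ℂ) =
        ∑ m ∈ Icc 1 N, ∑ n ∈ Icc 1 N, a m * (starRingEnd ℂ) (a n) *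
          Complex.exp (-(((Real.log m - Real.log n : ℝ) : ℂ) * Complex.I) * t) := by
      intro t
      rw [Complex.ofReal_pow, ← Complex.mul_conj', map_sum, Finset.sum_mul_sum]
      apply sum_congr rfl
      intro m _
      apply sum_congr rfl
      intro n _
      rw [map_mul, ← Complex.exp_conj]
      have h2 : (starRingEnd ℂ) (-(Real.log n * Complex.I) * t) = (Real.log n * Complex.I) * t := by
        simp only [map_mul, map_neg, Complex.conj_ofReal, Complex.conj_I]
        ring
      rw [h2]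
      have h3 : Complex.exp (-(((Real.log m - Real.log n : ℝ) : ℂ) * Complex.I) * t) =
          Complex.exp (-(Real.log m * Complex.I) * t) * Complex.exp (Real.log n * Complex.I * t) := by
        rw [← Complex.exp_add]
        congr 1
        push_cast
        ring
      rw [h3]
      ring
    simp only [h1]
    rw [intervalIntegral.integral_finsetSum]
    · apply sum_congr rfl
      intro m _
      rw [intervalIntegral.integral_finsetSum]
      · apply sum_congr rfl
        intro n _
        rw [intervalIntegral.integral_const_mul]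
      · intro n _
        apply Continuous.intervalIntegrable
        fun_prop
    · intro m _
      apply Continuous.intervalIntegrable
      fun_prop
  have hnn : 0 ≤ ∫ t in x..(x + H),
      ‖∑ n ∈ Icc 1 N, a n * Complex.exp (-(Real.log n * Complex.I) * t)‖ ^ 2 := by
    apply intervalIntegral.integral_nonneg (by linarith)
    intro t _
    positivity
  have h0 : (∫ t in x..(x + H),
      ‖∑ n ∈ Icc 1 N, a n * Complex.exp (-(Real.log n * Complex.I) * t)‖ ^ 2) =
      ‖∑ m ∈ Icc 1 N, ∑ n ∈ Icc 1 N, a m * (starRingEnd ℂ) (a n) * J m n‖ := by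
    rw [← hid, Complex.norm_real, Real.norm_of_nonneg hnn]
  rw [h0]
  set K : ℕ → ℕ → ℝ := fun m n => if m = n then H else 2 * N / |(m : ℝ) - n| with hK
  have hKs : ∀ m n, K m n = K n m := by
    intro m n
    simp only [hK]
    by_cases h : m = n
    · simp [h]
    · rw [if_neg h, if_neg (Ne.symm h), abs_sub_comm]
  have hK0 : ∀ m n, 0 ≤ K m n := by
    intro m n
    simp only [hK]
    split_ifs
    · exact hH
    · positivity
  have hJK : ∀ m ∈ Icc 1 N, ∀ n ∈ Icc 1 N, ‖J m n‖ ≤ K m n := by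
    intro m hm n hn
    rw [mem_Icc] at hm hn
    simp only [hK]
    split_ifs with h
    · subst h
      simp only [hJ, sub_self, Complex.ofReal_zero, zero_mul, neg_zero, Complex.exp_zero,
        intervalIntegral.integral_const, add_sub_cancel_left]
      rw [norm_smul, norm_one, mul_one, Real.norm_of_nonneg hH]
    · have hmn : (m : ℝ) ≠ n := by exact_mod_cast h
      have h1 := abs_log_sub_ge hm.1 hn.1 hm.2 hn.2
      have hN0 : (0 : ℝ) < N := by exact_mod_cast (by omega : 0 < N)
      have h2 : 0 < |(m : ℝ) - n| := abs_pos.2 (sub_ne_zero.2 hmn)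
      have h3 : 0 < |Real.log m - Real.log n| := lt_of_lt_of_le (by positivity) h1
      have h4 := norm_integral_exp_le x H (Real.log m - Real.log n) (abs_pos.1 h3)
      refine h4.trans ?_
      rw [div_le_div_iff₀ h3 h2]
      rw [div_le_iff₀ hN0] at h1
      nlinarith
  have hrow : ∀ m ∈ Icc 1 N, ∑ n ∈ Icc 1 N, K m n ≤ H + 4 * N * (1 + Real.log N) := by
    intro m hm
    rw [← Finset.add_sum_erase _ _ hm]
    have h1 : K m m = H := by simp [hK]
    rw [h1]
    have h2 : ∑ n ∈ (Icc 1 N).erase m, K m n = 2 * N * ∑ n ∈ (Icc 1 N).erase m, 1 / |(m : ℝ) - n| := by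
      rw [mul_sum]
      apply sum_congr rfl
      intro n hn
      rw [mem_erase] at hn
      simp only [hK]
      rw [if_neg (Ne.symm hn.1)]
      ring
    rw [h2]
    rw [mem_Icc] at hm
    have h3 := sum_inv_dist_le hm.1 hm.2
    have h4 : (0 : ℝ) ≤ 2 * N := by positivity
    nlinarith [mul_le_mul_of_nonneg_left h3 h4]
  calc ‖∑ m ∈ Icc 1 N, ∑ n ∈ Icc 1 N, a m * (starRingEnd ℂ) (a n) * J m n‖
      ≤ ∑ m ∈ Icc 1 N, ∑ n ∈ Icc 1 N, (‖a m‖ ^ 2 / 2 * K m n + ‖a n‖ ^ 2 / 2 * K m n) := by
        refine (norm_sum_le _ _).trans (sum_le_sum fun m hm => ?_)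
        refine (norm_sum_le _ _).trans (sum_le_sum fun n hn => ?_)
        rw [norm_mul, norm_mul, RCLike.norm_conj]
        have h1 := hJK m hm n hn
        have h2 : ‖a m‖ * ‖a n‖ ≤ ‖a m‖ ^ 2 / 2 + ‖a n‖ ^ 2 / 2 := by
          nlinarith [sq_nonneg (‖a m‖ - ‖a n‖)]
        calc ‖a m‖ * ‖a n‖ * ‖J m n‖ ≤ (‖a m‖ ^ 2 / 2 + ‖a n‖ ^ 2 / 2) * K m n :=
              mul_le_mul h2 h1 (norm_nonneg _) (by positivity)
          _ = _ := by ring
    _ = ∑ m ∈ Icc 1 N, ‖a m‖ ^ 2 * ∑ n ∈ Icc 1 N, K m n := by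
        simp only [sum_add_distrib]
        have h1 : ∑ m ∈ Icc 1 N, ∑ n ∈ Icc 1 N, ‖a n‖ ^ 2 / 2 * K m n =
            ∑ m ∈ Icc 1 N, ∑ n ∈ Icc 1 N, ‖a m‖ ^ 2 / 2 * K m n := by
          rw [sum_comm]
          apply sum_congr rfl
          intro m _
          apply sum_congr rfl
          intro n _
          rw [hKs]
        rw [h1, ← sum_add_distrib]
        apply sum_congr rfl
        intro m _
        rw [← sum_add_distrib, mul_sum]
        apply sum_congr rfl
        intro n _
        ring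
    _ ≤ ∑ m ∈ Icc 1 N, ‖a m‖ ^ 2 * (H + 4 * N * (1 + Real.log N)) := by
        apply sum_le_sum
        intro m hm
        exact mul_le_mul_of_nonneg_left (hrow m hm) (by positivity)
    _ = _ := by
        rw [← sum_mul]
        ring

end Pool.Agent.H.MP_2e4794_nt.ZM
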