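import Pool.Agent.H.MP_2e4794_nt.ZM.ZB

/-!
# The Euler product, truncated
-/

namespace Pool.Agent.H.MP_2e4794_nt.ZM

open Finset Filter Topology

/-- the primes in `(a, b]` -/
def prs (a b : ℕ) : Finset ℕ := (Ioc a b).filter Nat.Prime

lemma mem_prs {a b p : ℕ} : p ∈ prs a b ↔ (a < p ∧ p ≤ b) ∧ p.Prime := by
  simp [prs, mem_filter, mem_Ioc]

lemma norm_cpow_le {s : ℂ} (hs : 1 ≤ s.re) {n : ℕ} (hn : 1 ≤ n) : ‖(n : ℂ) ^ (-s)‖ ≤ 1 / n := by
  have hn1 : (1 : ℝ) ≤ n := by exact_mod_cast hn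
  have := norm_cpow_real (x := n) (by linarith) (-s)
  rw [Complex.ofReal_natCast] at this
  rw [this, Complex.neg_re, one_div, ← Real.rpow_neg_one]
  apply Real.rpow_le_rpow_of_exponent_le hn1
  linarith

lemma factor_bounds {z : ℂ} {p : ℕ} (hp : 2 ≤ p) (hz : ‖z‖ ≤ 1 / p) :
    ‖(1 - z)⁻¹‖ ≤ (1 - 1 / (p : ℝ))⁻¹ ∧ 1 ≤ ‖(1 - z)⁻¹‖ * (1 + 1 / (p : ℝ)) := by
  have hp1 : (2 : ℝ) ≤ p := by exact_mod_cast hp
  have hp2 : 1 / (p : ℝ) ≤ 1 / 2 := one_div_le_one_div_of_le (by norm_num) hp1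
  have h1 : 1 - 1 / (p : ℝ) ≤ ‖1 - z‖ := by
    have := norm_sub_norm_le (1 : ℂ) z
    rw [norm_one] at this
    linarith
  have h2 : ‖1 - z‖ ≤ 1 + 1 / (p : ℝ) := by
    have := norm_sub_le (1 : ℂ) z
    rw [norm_one] at this
    linarith
  have h3 : 0 < ‖1 - z‖ := by linarith
  constructor
  · rw [norm_inv]
    exact inv_anti₀ (by linarith) h1
  · rw [norm_inv, inv_mul_eq_div, le_div_iff₀ h3]
    linarith

/-- product over large primes -/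
lemma prod_large {s : ℂ} (hs : 1 ≤ s.re) {y M : ℕ} (hy : 1 ≤ y) :
    ‖∏ p ∈ prs y M, (1 - (p : ℂ) ^ (-s))⁻¹‖ ≤
      Real.exp (‖∑ p ∈ prs y M, (p : ℂ) ^ (-s)‖ + 1 / y) ∧
    Real.exp (-(‖∑ p ∈ prs y M, (p : ℂ) ^ (-s)‖ + 1 / y)) ≤
      ‖∏ p ∈ prs y M, (1 - (p : ℂ) ^ (-s))⁻¹‖ := by
  have hz : ∀ p ∈ prs y M, ‖(p : ℂ) ^ (-s)‖ ≤ 1 / p := by
    intro p hp
    rw [mem_prs] at hp
    exact norm_cpow_le hs hp.2.one_lt.le
  have hz2 : ∀ p ∈ prs y M, ‖(p : ℂ) ^ (-s)‖ ≤ 1 / 2 := by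
    intro p hp
    refine (hz p hp).trans ?_
    rw [mem_prs] at hp
    have : (2 : ℝ) ≤ p := by exact_mod_cast hp.2.two_le
    exact one_div_le_one_div_of_le (by norm_num) this
  have h1 : ∏ p ∈ prs y M, (1 - (p : ℂ) ^ (-s))⁻¹ =
      Complex.exp (∑ p ∈ prs y M, Complex.log ((1 - (p : ℂ) ^ (-s))⁻¹)) := by
    rw [Complex.exp_sum]
    apply prod_congr rfl
    intro p hp
    rw [Complex.exp_log]
    apply inv_ne_zero
    intro h
    have h2 := hz2 p hp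
    rw [← sub_eq_zero.1 h, norm_one] at h2
    norm_num at h2
  have h2 : ∀ p ∈ prs y M, ‖Complex.log ((1 - (p : ℂ) ^ (-s))⁻¹) - (p : ℂ) ^ (-s)‖ ≤
      1 / ((p : ℝ) - 1) - 1 / p := by
    intro p hp
    have h3 := hz p hp
    have h4 := hz2 p hp
    have h5 := Complex.norm_log_one_sub_inv_sub_self_le (z := (p : ℂ) ^ (-s)) (by linarith)
    refine h5.trans ?_
    rw [mem_prs] at hp
    have hp2 : (2 : ℝ) ≤ p := by exact_mod_cast hp.2.two_le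
    have h6 : (1 - ‖(p : ℂ) ^ (-s)‖)⁻¹ ≤ 2 := by
      rw [inv_le_comm₀ (by linarith) (by norm_num)]
      linarith
    have h6' : 0 ≤ (1 - ‖(p : ℂ) ^ (-s)‖)⁻¹ := inv_nonneg.2 (by linarith)
    calc ‖(p : ℂ) ^ (-s)‖ ^ 2 * (1 - ‖(p : ℂ) ^ (-s)‖)⁻¹ / 2 ≤ (1 / p) ^ 2 * 2 / 2 := by
          gcongr
      _ = (1 / (p : ℝ)) ^ 2 := by ring
      _ ≤ 1 / ((p : ℝ) - 1) - 1 / p := by
          have h7 : (0 : ℝ) < p - 1 := by linarith
          have h8 : 1 / ((p : ℝ) - 1) - 1 / p = 1 / ((p - 1) * p) := by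
            field_simp
            ring
          rw [h8, div_pow, one_pow]
          apply one_div_le_one_div_of_le (by positivity)
          nlinarith
  have h3 : ∑ p ∈ prs y M, (1 / ((p : ℝ) - 1) - 1 / p) ≤ 1 / y := by
    have h4 : ∀ M : ℕ, y ≤ M → ∑ n ∈ Ioc y M, (1 / ((n : ℝ) - 1) - 1 / n) = 1 / y - 1 / M := by
      intro M hM
      induction M, hM using Nat.le_induction with
      | base => simp
      | succ M hM ih =>
        rw [Finset.sum_Ioc_succ_top (by omega), ih]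
        push_cast
        ring
    rcases le_or_gt y M with hM | hM
    · calc _ ≤ ∑ n ∈ Ioc y M, (1 / ((n : ℝ) - 1) - 1 / n) := by
            apply sum_le_sum_of_subset_of_nonneg
            · exact filter_subset _ _
            · intro n hn _
              rw [mem_Ioc] at hn
              have h5 : (2 : ℝ) ≤ n := by exact_mod_cast (by omega : 2 ≤ n)
              have : 1 / (n : ℝ) ≤ 1 / ((n : ℝ) - 1) :=
                one_div_le_one_div_of_le (by linarith) (by linarith)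
              linarith
        _ = 1 / y - 1 / M := h4 M hM
        _ ≤ 1 / y := by
            have : (0 : ℝ) ≤ 1 / M := by positivity
            linarith
    · have : prs y M = ∅ := by
        ext p
        simp only [mem_prs, notMem_empty, iff_false]
        omega
      rw [this, sum_empty]
      positivity
  have h4 : ‖∑ p ∈ prs y M, Complex.log ((1 - (p : ℂ) ^ (-s))⁻¹) -
      ∑ p ∈ prs y M, (p : ℂ) ^ (-s)‖ ≤ 1 / y := by
    rw [← sum_sub_distrib]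
    exact ((norm_sum_le _ _).trans (sum_le_sum h2)).trans h3
  have h5 : |(∑ p ∈ prs y M, Complex.log ((1 - (p : ℂ) ^ (-s))⁻¹)).re| ≤
      ‖∑ p ∈ prs y M, (p : ℂ) ^ (-s)‖ + 1 / y := by
    refine (Complex.abs_re_le_norm _).trans ?_
    have := norm_add_le (∑ p ∈ prs y M, Complex.log ((1 - (p : ℂ) ^ (-s))⁻¹) -
      ∑ p ∈ prs y M, (p : ℂ) ^ (-s)) (∑ p ∈ prs y M, (p : ℂ) ^ (-s))
    rw [sub_add_cancel] at this
    linarith
  rw [h1, Complex.norm_exp, Real.exp_le_exp, Real.exp_le_exp]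
  rw [abs_le] at h5
  exact ⟨h5.2, h5.1⟩

/-- **Truncated Euler product.** -/
theorem euler_bounds {s : ℂ} (hs : 1 < s.re) {y M0 : ℕ} (hy : 1 ≤ y) {E : ℝ}
    (hE : ∀ M : ℕ, M0 ≤ M → ‖∑ p ∈ prs y M, (p : ℂ) ^ (-s)‖ ≤ E) :
    ‖riemannZeta s‖ ≤ (∏ p ∈ prs 0 y, (1 - 1 / (p : ℝ))⁻¹) * Real.exp (E + 1 / y) ∧
    Real.exp (-(E + 1 / y)) ≤ ‖riemannZeta s‖ * ∏ p ∈ prs 0 y, (1 + 1 / (p : ℝ)) := by
  have hlim : Tendsto (fun M : ℕ => ‖∏ p ∈ prs 0 M, (1 - (p : ℂ) ^ (-s))⁻¹‖) atTop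
      (𝓝 ‖riemannZeta s‖) := by
    have h1 := (riemannZeta_eulerProduct hs).comp (tendsto_add_atTop_nat 1)
    refine h1.norm.congr fun M => ?_
    simp only [Function.comp]
    congr 1
    apply prod_congr _ fun _ _ => rfl
    ext p
    rw [Nat.mem_primesBelow, mem_prs]
    constructor
    · rintro ⟨h2, h3⟩
      exact ⟨⟨h3.pos, by omega⟩, h3⟩
    · rintro ⟨⟨h2, h3⟩, h4⟩
      exact ⟨by omega, h4⟩
  have hsplit : ∀ M : ℕ, y ≤ M → ∏ p ∈ prs 0 M, (1 - (p : ℂ) ^ (-s))⁻¹ =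
      (∏ p ∈ prs 0 y, (1 - (p : ℂ) ^ (-s))⁻¹) * ∏ p ∈ prs y M, (1 - (p : ℂ) ^ (-s))⁻¹ := by
    intro M hM
    rw [← prod_union]
    · apply prod_congr _ fun _ _ => rfl
      ext p
      simp only [mem_union, mem_prs]
      constructor
      · rintro ⟨⟨h2, h3⟩, h4⟩
        by_cases h5 : p ≤ y
        · exact Or.inl ⟨⟨h2, h5⟩, h4⟩
        · exact Or.inr ⟨⟨by omega, h3⟩, h4⟩
      · rintro (⟨⟨h2, h3⟩, h4⟩ | ⟨⟨h2, h3⟩, h4⟩)
        · exact ⟨⟨h2, by omega⟩, h4⟩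
        · exact ⟨⟨by omega, h3⟩, h4⟩
    · rw [Finset.disjoint_left]
      intro p h6 h7
      rw [mem_prs] at h6 h7
      omega
  have hsmall : ‖∏ p ∈ prs 0 y, (1 - (p : ℂ) ^ (-s))⁻¹‖ ≤ ∏ p ∈ prs 0 y, (1 - 1 / (p : ℝ))⁻¹ := by
    rw [norm_prod]
    apply prod_le_prod (fun _ _ => norm_nonneg _)
    intro p hp
    rw [mem_prs] at hp
    exact (factor_bounds hp.2.two_le (norm_cpow_le hs.le hp.2.one_lt.le)).1
  have hsmall' : 1 ≤ ‖∏ p ∈ prs 0 y, (1 - (p : ℂ) ^ (-s))⁻¹‖ * ∏ p ∈ prs 0 y, (1 + 1 / (p : ℝ)) := by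
    rw [norm_prod, ← prod_mul_distrib]
    have h1 := prod_le_prod (s := prs 0 y) (f := fun _ => (1 : ℝ))
      (g := fun p : ℕ => ‖(1 - (p : ℂ) ^ (-s))⁻¹‖ * (1 + 1 / (p : ℝ)))
      (fun _ _ => zero_le_one) (fun p hp => by
        rw [mem_prs] at hp
        exact (factor_bounds hp.2.two_le (norm_cpow_le hs.le hp.2.one_lt.le)).2)
    rwa [prod_const_one] at h1
  constructor
  · refine le_of_tendsto hlim ?_
    filter_upwards [eventually_ge_atTop (max y M0)] with M hM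
    rw [hsplit M (le_of_max_le_left hM), norm_mul]
    have h1 := (prod_large hs.le (M := M) hy).1
    have h2 := hE M (le_of_max_le_right hM)
    apply mul_le_mul hsmall (h1.trans _) (norm_nonneg _)
    · exact (norm_nonneg _).trans hsmall
    · rw [Real.exp_le_exp]
      linarith
  · have h3 : Tendsto (fun M : ℕ => ‖∏ p ∈ prs 0 M, (1 - (p : ℂ) ^ (-s))⁻¹‖ *
        ∏ p ∈ prs 0 y, (1 + 1 / (p : ℝ))) atTop
        (𝓝 (‖riemannZeta s‖ * ∏ p ∈ prs 0 y, (1 + 1 / (p : ℝ)))) := hlim.mul_const _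
    refine ge_of_tendsto h3 ?_
    filter_upwards [eventually_ge_atTop (max y M0)] with M hM
    rw [hsplit M (le_of_max_le_left hM), norm_mul]
    have h1 := (prod_large hs.le (M := M) hy).2
    have h2 := hE M (le_of_max_le_right hM)
    have h4 : Real.exp (-(E + 1 / y)) ≤ ‖∏ p ∈ prs y M, (1 - (p : ℂ) ^ (-s))⁻¹‖ := by
      refine le_trans ?_ h1
      rw [Real.exp_le_exp]
      linarith
    calc Real.exp (-(E + 1 / y)) ≤ ‖∏ p ∈ prs y M, (1 - (p : ℂ) ^ (-s))⁻¹‖ * 1 := by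
          rw [mul_one]
          exact h4
      _ ≤ ‖∏ p ∈ prs y M, (1 - (p : ℂ) ^ (-s))⁻¹‖ *
          (‖∏ p ∈ prs 0 y, (1 - (p : ℂ) ^ (-s))⁻¹‖ * ∏ p ∈ prs 0 y, (1 + 1 / (p : ℝ))) :=
          mul_le_mul_of_nonneg_left hsmall' (norm_nonneg _)
      _ = _ := by ring

end Pool.Agent.H.MP_2e4794_nt.ZM
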