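import Pool.Agent.H.MP_42e49e_nt.Mer

/-!
# Towards Mertens' third theorem: the sum of the reciprocals of the primes
-/

namespace Pool.Agent.H.MP_2e4794_nt.ZM

open Finset Filter Topology MeasureTheory Asymptotics
open Pool.Agent.H.MP_3e6494_nt (prm mem_prm)

/-- sum of the reciprocals of the primes up to `N` -/
noncomputable abbrev RR (N : ℕ) : ℝ := Pool.MP42e49e.FF N

lemma RR_nonneg (N : ℕ) : 0 ≤ RR N := by
  unfold RR Pool.MP42e49e.FF
  exact sum_nonneg fun _ _ => by positivity

lemma RR_one : ∀ N : ℕ, N ≤ 1 → RR N = 0 := by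
  intro N hN
  unfold RR Pool.MP42e49e.FF
  have : prm N = ∅ := by
    ext p
    rw [mem_prm]
    simp only [notMem_empty, iff_false, not_and]
    intro hp
    have := hp.two_le
    omega
  rw [this, sum_empty]

lemma RR_bound {N : ℕ} (hN : 2 ≤ N) : |RR N - Real.log (Real.log N)| ≤ 40 := by
  obtain ⟨h1, h2⟩ := Pool.MP42e49e.window (v := 2) le_rfl hN
  have h3 : Pool.MP42e49e.FF 2 = 1 / 2 := by
    unfold Pool.MP42e49e.FF
    have : prm 2 = {2} := by decide
    rw [this]
    simp
  rw [h3, Nat.cast_ofNat] at h1 h2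
  have hl := Real.log_two_gt_d9
  have hl' := Real.log_two_lt_d9
  have h4 : 12 / Real.log 2 ≤ 20 := by
    rw [div_le_iff₀ (by linarith)]
    linarith
  have h5 : Real.log (Real.log 2) ≤ 0 := by
    apply Real.log_nonpos <;> linarith
  have h6 : -1 ≤ Real.log (Real.log 2) := by
    rw [Real.le_log_iff_exp_le (by linarith)]
    have := Real.exp_neg_one_lt_d9
    linarith
  change |Pool.MP42e49e.FF N - Real.log (Real.log N)| ≤ 40
  rw [abs_le]
  constructor <;> linarith

/-- the constant of Mertens' second theorem -/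
lemma exists_mm : ∃ m : ℝ, Tendsto (fun N : ℕ => RR N - Real.log (Real.log N)) atTop (𝓝 m) := by
  apply cauchySeq_tendsto_of_complete
  rw [Metric.cauchySeq_iff']
  intro ε hε
  have h1 : Tendsto (fun N : ℕ => 12 / Real.log (N : ℝ)) atTop (𝓝 0) :=
    (Real.tendsto_log_atTop.comp tendsto_natCast_atTop_atTop).const_div_atTop 12
  obtain ⟨v, hv⟩ := ((h1.eventually (gt_mem_nhds hε)).and (eventually_ge_atTop 2)).exists
  refine ⟨v, fun n hn => ?_⟩
  obtain ⟨h2, h3⟩ := Pool.MP42e49e.window hv.2 hn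
  rw [Real.dist_eq, abs_lt]
  have := hv.1
  constructor <;> linarith

/-- the constant of Mertens' second theorem -/
noncomputable def mm : ℝ := exists_mm.choose

lemma tendsto_mm : Tendsto (fun N : ℕ => RR N - Real.log (Real.log N)) atTop (𝓝 mm) :=
  exists_mm.choose_spec

lemma log_log_floor {X : ℝ} (hX : 2 ≤ X) :
    |Real.log (Real.log X) - Real.log (Real.log ⌊X⌋₊)| ≤ 1 / Real.log ⌊X⌋₊ := by
  have h2 : (2 : ℕ) ≤ ⌊X⌋₊ := Nat.le_floor (by exact_mod_cast hX)
  have h2' : (2 : ℝ) ≤ (⌊X⌋₊ : ℝ) := by exact_mod_cast h2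
  have h3 : (⌊X⌋₊ : ℝ) ≤ X := Nat.floor_le (by linarith)
  have h4 : X < ⌊X⌋₊ + 1 := Nat.lt_floor_add_one X
  have hl : 0 < Real.log (⌊X⌋₊ : ℝ) := Real.log_pos (by linarith)
  have hl' : Real.log (⌊X⌋₊ : ℝ) ≤ Real.log X := Real.log_le_log (by linarith) h3
  have h5 : Real.log X - Real.log (⌊X⌋₊ : ℝ) ≤ 1 := by
    rw [← Real.log_div (by linarith) (by linarith)]
    have h6 := Real.log_le_sub_one_of_pos (show 0 < X / ⌊X⌋₊ by positivity)
    have h7 : X / ⌊X⌋₊ ≤ 2 := by
      rw [div_le_iff₀ (by linarith)]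
      linarith
    linarith
  have h6 : 0 ≤ Real.log (Real.log X) - Real.log (Real.log ⌊X⌋₊) := by
    have := Real.log_le_log hl hl'
    linarith
  rw [abs_of_nonneg h6, ← Real.log_div (by linarith) hl.ne']
  have h8 := Real.log_le_sub_one_of_pos (show 0 < Real.log X / Real.log ⌊X⌋₊ by
    apply div_pos _ hl
    linarith)
  have h9 : Real.log X / Real.log ⌊X⌋₊ - 1 ≤ 1 / Real.log ⌊X⌋₊ := by
    rw [div_sub_one hl.ne']
    exact div_le_div_of_nonneg_right h5 hl.le
  linarith

lemma RR_floor_bound {X : ℝ} (hX : 2 ≤ X) : |RR ⌊X⌋₊ - Real.log (Real.log X)| ≤ 50 := by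
  have h2 : (2 : ℕ) ≤ ⌊X⌋₊ := Nat.le_floor (by exact_mod_cast hX)
  have h2' : (2 : ℝ) ≤ (⌊X⌋₊ : ℝ) := by exact_mod_cast h2
  have h1 := RR_bound h2
  have h3 := log_log_floor hX
  have hl := Real.log_two_gt_d9
  have h4 : Real.log 2 ≤ Real.log (⌊X⌋₊ : ℝ) := Real.log_le_log (by norm_num) h2'
  have h5 : 1 / Real.log (⌊X⌋₊ : ℝ) ≤ 2 := by
    rw [div_le_iff₀ (by linarith)]
    linarith
  rw [abs_le] at h1 h3 ⊢
  constructor <;> linarith [h1.1, h1.2, h3.1, h3.2]

lemma tendsto_RR_floor :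
    Tendsto (fun X : ℝ => RR ⌊X⌋₊ - Real.log (Real.log X)) atTop (𝓝 mm) := by
  have h1 := tendsto_mm.comp (tendsto_nat_floor_atTop (α := ℝ))
  have h2 : Tendsto (fun X : ℝ => Real.log (Real.log X) - Real.log (Real.log (⌊X⌋₊ : ℝ))) atTop
      (𝓝 0) := by
    have h3 : Tendsto (fun X : ℝ => 1 / Real.log (⌊X⌋₊ : ℝ)) atTop (𝓝 0) :=
      ((Real.tendsto_log_atTop.comp tendsto_natCast_atTop_atTop).comp
        (tendsto_nat_floor_atTop (α := ℝ))).const_div_atTop 1
    apply squeeze_zero_norm' _ h3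
    filter_upwards [eventually_ge_atTop 2] with X hX
    exact log_log_floor hX
  have h3 := h1.sub h2
  rw [sub_zero] at h3
  refine h3.congr fun X => ?_
  simp only [Function.comp]
  ring

/-! ### The integral `∫ log u e^(-u) du` -/

lemma mellin_log_exp : IntegrableOn (fun t : ℝ => Real.log t * Real.exp (-t)) (Set.Ioi 0) ∧
    ∫ t in Set.Ioi (0 : ℝ), Real.log t * Real.exp (-t) = -Real.eulerMascheroniConstant := by
  have h := mellin_hasDerivAt_of_isBigO_rpow (E := ℂ) (f := fun x : ℝ => ((Real.exp (-x) : ℝ) : ℂ))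
    (a := 2) (b := 0) (s := 1) ?_ ?_ ?_ ?_ ?_
  · have hI : IntegrableOn (fun t : ℝ => Real.log t * Real.exp (-t)) (Set.Ioi 0) := by
      have h1 := h.1
      unfold MellinConvergent at h1
      have h2 : IntegrableOn (fun t : ℝ => ((Real.log t * Real.exp (-t) : ℝ) : ℂ)) (Set.Ioi 0) := by
        refine h1.congr_fun ?_ measurableSet_Ioi
        intro t _
        simp
      exact h2.re
    refine ⟨hI, ?_⟩
    have h3 : HasDerivAt Complex.Gamma
        (mellin (fun t : ℝ => Real.log t • ((Real.exp (-t) : ℝ) : ℂ)) 1) 1 := by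
      have h4 := h.2
      have h5 : mellin (fun x : ℝ => ((Real.exp (-x) : ℝ) : ℂ)) = Complex.GammaIntegral :=
        Complex.GammaIntegral_eq_mellin.symm
      rw [h5] at h4
      apply h4.congr_of_eventuallyEq
      have h6 : ∀ᶠ s : ℂ in 𝓝 1, 0 < s.re := by
        apply (Complex.continuous_re.isOpen_preimage _ isOpen_Ioi).mem_nhds
        simp
      filter_upwards [h6] with s hs
      exact Complex.Gamma_eq_integral hs
    have h7 := h3.unique Complex.hasDerivAt_Gamma_one
    have h8 : mellin (fun t : ℝ => Real.log t • ((Real.exp (-t) : ℝ) : ℂ)) 1 =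
        ((∫ t in Set.Ioi (0 : ℝ), Real.log t * Real.exp (-t) : ℝ) : ℂ) := by
      unfold mellin
      rw [← integral_complex_ofReal]
      apply setIntegral_congr_fun measurableSet_Ioi
      intro t _
      simp
    rw [h8] at h7
    exact_mod_cast h7
  · refine (Continuous.continuousOn ?_).locallyIntegrableOn measurableSet_Ioi
    exact Complex.continuous_ofReal.comp (Real.continuous_exp.comp continuous_neg)
  · rw [← isBigO_norm_left]
    simp_rw [Complex.norm_real, isBigO_norm_left]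
    simpa only [neg_one_mul] using (isLittleO_exp_neg_mul_rpow_atTop zero_lt_one _).isBigO
  · norm_num
  · simp_rw [neg_zero, Real.rpow_zero]
    refine isBigO_const_of_tendsto (?_ : Tendsto _ _ (𝓝 (1 : ℂ))) one_ne_zero
    rw [(by simp : (1 : ℂ) = Real.exp (-0))]
    exact (Complex.continuous_ofReal.comp
      (Real.continuous_exp.comp continuous_neg)).continuousWithinAt
  · norm_num

/-! ### The Laplace transform of the step function -/

lemma JJ_meas (h : ℝ) : Measurable fun u : ℝ =>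
    (RR ⌊Real.exp (u / h)⌋₊ + Real.log h) * Real.exp (-u) := by
  apply Measurable.mul _ (by fun_prop)
  apply Measurable.add_const
  exact (measurable_from_top (f := fun n : ℕ => RR n)).comp (Nat.measurable_floor.comp (by fun_prop))

lemma JJ_bound {h : ℝ} (hh : h ∈ Set.Ioo (0 : ℝ) 1) {u : ℝ} (hu0 : 0 < u) :
    ‖(RR ⌊Real.exp (u / h)⌋₊ + Real.log h) * Real.exp (-u)‖ ≤
      (|Real.log u| + 50) * Real.exp (-u) := by
  rw [norm_mul, Real.norm_of_nonneg (Real.exp_pos _).le]
  apply mul_le_mul_of_nonneg_right _ (Real.exp_pos _).le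
  rw [Real.norm_eq_abs]
  rcases le_or_gt 2 (Real.exp (u / h)) with h2 | h2
  · have h3 := RR_floor_bound h2
    rw [Real.log_exp, Real.log_div hu0.ne' hh.1.ne'] at h3
    rw [abs_le] at h3 ⊢
    have h4 := neg_abs_le (Real.log u)
    have h5 := le_abs_self (Real.log u)
    constructor <;> linarith [h3.1, h3.2]
  · have h3 : ⌊Real.exp (u / h)⌋₊ ≤ 1 := by
      have : ⌊Real.exp (u / h)⌋₊ < 2 := (Nat.floor_lt (Real.exp_pos _).le).2 (by exact_mod_cast h2)
      omega
    rw [RR_one _ h3, zero_add]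
    have h4 : u < h := by
      have h5 : u / h < Real.log 2 := by
        rw [← Real.log_exp (u / h)]
        exact Real.log_lt_log (Real.exp_pos _) h2
      have h6 := Real.log_two_lt_d9
      rw [div_lt_iff₀ hh.1] at h5
      nlinarith [hh.1]
    have h7 : Real.log u ≤ Real.log h := Real.log_le_log hu0 h4.le
    have h8 : Real.log h ≤ 0 := Real.log_nonpos hh.1.le hh.2.le
    rw [abs_of_nonpos h8, abs_of_nonpos (h7.trans h8)]
    linarith

lemma JJ_dom : IntegrableOn (fun u : ℝ => (|Real.log u| + 50) * Real.exp (-u)) (Set.Ioi 0) := by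
  have hexp : IntegrableOn (fun u : ℝ => Real.exp (-u)) (Set.Ioi 0) := integrableOn_exp_neg_Ioi 0
  have h1 : ∀ u : ℝ, (|Real.log u| + 50) * Real.exp (-u) =
      ‖Real.log u * Real.exp (-u)‖ + 50 * Real.exp (-u) := by
    intro u
    rw [norm_mul, Real.norm_eq_abs, Real.norm_of_nonneg (Real.exp_pos _).le]
    ring
  simp only [h1]
  exact mellin_log_exp.1.norm.add (hexp.const_mul 50)

lemma JJ_int {h : ℝ} (hh : h ∈ Set.Ioo (0 : ℝ) 1) : IntegrableOn
    (fun u : ℝ => (RR ⌊Real.exp (u / h)⌋₊ + Real.log h) * Real.exp (-u)) (Set.Ioi 0) := by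
  refine Integrable.mono' JJ_dom (JJ_meas h).aestronglyMeasurable ?_
  apply ae_restrict_of_forall_mem measurableSet_Ioi
  intro u hu
  exact JJ_bound hh hu

lemma tendsto_JJ : Tendsto (fun h : ℝ => ∫ u in Set.Ioi (0 : ℝ),
      (RR ⌊Real.exp (u / h)⌋₊ + Real.log h) * Real.exp (-u)) (𝓝[>] 0)
    (𝓝 (mm - Real.eulerMascheroniConstant)) := by
  have hexp : IntegrableOn (fun u : ℝ => Real.exp (-u)) (Set.Ioi 0) := integrableOn_exp_neg_Ioi 0
  have hval : ∫ u in Set.Ioi (0 : ℝ), (mm + Real.log u) * Real.exp (-u) =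
      mm - Real.eulerMascheroniConstant := by
    have h1 : ∀ u : ℝ, (mm + Real.log u) * Real.exp (-u) =
        mm * Real.exp (-u) + Real.log u * Real.exp (-u) := fun u => by ring
    simp only [h1]
    rw [integral_add (hexp.const_mul mm) mellin_log_exp.1, integral_const_mul, mellin_log_exp.2,
      integral_exp_neg_Ioi_zero]
    ring
  rw [← hval]
  apply tendsto_integral_filter_of_dominated_convergence
    (fun u : ℝ => (|Real.log u| + 50) * Real.exp (-u))
  · filter_upwards [self_mem_nhdsWithin] with h _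
    exact (JJ_meas h).aestronglyMeasurable
  · have h1 : Set.Ioo (0 : ℝ) 1 ∈ 𝓝[>] (0 : ℝ) := Ioo_mem_nhdsGT one_pos
    filter_upwards [h1] with h hh
    apply ae_restrict_of_forall_mem measurableSet_Ioi
    intro u hu
    exact JJ_bound hh hu
  · exact JJ_dom
  · apply ae_restrict_of_forall_mem measurableSet_Ioi
    intro u hu
    have hu0 : (0 : ℝ) < u := hu
    apply Tendsto.mul_const
    have h1 : Tendsto (fun h : ℝ => Real.exp (u / h)) (𝓝[>] 0) atTop := by
      apply Real.tendsto_exp_atTop.comp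
      have h2 : Tendsto (fun h : ℝ => h⁻¹) (𝓝[>] 0) atTop := tendsto_inv_nhdsGT_zero
      exact (h2.const_mul_atTop hu0)
    have h3 := (tendsto_RR_floor.comp h1).add_const (Real.log u)
    refine h3.congr' ?_
    filter_upwards [self_mem_nhdsWithin] with h hh
    have hh' : (0 : ℝ) < h := hh
    simp only [Function.comp]
    rw [Real.log_exp, Real.log_div hu0.ne' hh'.ne']
    ring

end Pool.Agent.H.MP_2e4794_nt.ZM
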