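import Pool.Agent.H.MP_2e4794_nt.ZM.M3a

/-!
# The prime zeta function near `1`
-/

namespace Pool.Agent.H.MP_2e4794_nt.ZM

open Finset Filter Topology MeasureTheory Asymptotics
open Pool.Agent.H.MP_3e6494_nt (prm mem_prm)

noncomputable def ff (n : ℕ) : ℝ := if n.Prime then 1 / (n : ℝ) else 0

lemma sum_ff (n : ℕ) : ∑ k ∈ Icc 1 n, ff k = RR n := by
  unfold RR Pool.MP42e49e.FF prm ff
  rw [sum_filter]

lemma RR_le (n : ℕ) : RR n ≤ 1 + Real.log n := by
  have h4 := harmonic_le_one_add_log n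
  rw [harmonic_eq_sum_Icc] at h4
  push_cast at h4
  refine le_trans ?_ h4
  unfold RR Pool.MP42e49e.FF prm
  simp only [one_div]
  exact sum_le_sum_of_subset_of_nonneg (filter_subset _ _) fun _ _ _ => by positivity

lemma RR_isBigO {r : ℝ} (hr : 0 < r) :
    (fun n : ℕ => ∑ k ∈ Icc 1 n, ff k) =O[atTop] fun n : ℕ => (n : ℝ) ^ r := by
  simp only [sum_ff]
  have h1 : (fun n : ℕ => RR n) =O[atTop] fun n : ℕ => 1 + Real.log n := by
    apply isBigO_of_le
    intro n
    rw [Real.norm_of_nonneg (RR_nonneg n), Real.norm_of_nonneg (le_trans (RR_nonneg n) (RR_le n))]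
    exact RR_le n
  refine h1.trans ?_
  have h2 : (fun x : ℝ => 1 + Real.log x) =O[atTop] fun x : ℝ => x ^ r := by
    apply IsBigO.add
    · apply IsLittleO.isBigO
      rw [isLittleO_const_left]
      right
      exact tendsto_norm_atTop_atTop.comp (tendsto_rpow_atTop hr)
    · exact (isLittleO_log_rpow_atTop hr).isBigO
  exact h2.comp_tendsto tendsto_natCast_atTop_atTop

/-- the prime zeta function at `1 + h` -/
noncomputable def AA (h : ℝ) : ℝ := ∑' p : Nat.Primes, (p : ℝ) ^ (-(1 + h))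

lemma summable_AA {h : ℝ} (hh : 0 < h) :
    Summable fun p : Nat.Primes => (p : ℝ) ^ (-(1 + h)) :=
  Nat.Primes.summable_rpow.2 (by linarith)

lemma AA_eq_LSeries {h : ℝ} (hh : 0 < h) : LSeries (fun n => (ff n : ℂ)) h = (AA h : ℂ) := by
  unfold LSeries AA
  have h1 : ∀ n : ℕ, LSeries.term (fun n => (ff n : ℂ)) h n =
      (({p : ℕ | p.Prime}.indicator (fun p : ℕ => (p : ℝ) ^ (-(1 + h))) n : ℝ) : ℂ) := by
    intro n
    rcases Nat.eq_zero_or_pos n with rfl | hn
    · rw [LSeries.term_zero, Set.indicator_of_notMem (by simpa using Nat.not_prime_zero)]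
      simp
    · have hn0 : (0 : ℝ) < n := by exact_mod_cast hn
      rw [LSeries.term_of_ne_zero hn.ne']
      unfold ff
      by_cases hp : n.Prime
      · rw [if_pos hp, Set.indicator_of_mem (by exact hp)]
        rw [← Complex.ofReal_natCast, ← Complex.ofReal_cpow hn0.le, ← Complex.ofReal_div]
        congr 1
        rw [neg_add, Real.rpow_add hn0, Real.rpow_neg_one, Real.rpow_neg hn0.le]
        field_simp
      · rw [if_neg hp, Set.indicator_of_notMem (by exact hp)]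
        simp
  simp only [h1]
  rw [← Complex.ofReal_tsum]
  congr 1
  exact (_root_.tsum_subtype {p : ℕ | p.Prime} (fun p : ℕ => (p : ℝ) ^ (-(1 + h)))).symm

lemma image_exp_div {h : ℝ} (hh : 0 < h) :
    (fun u : ℝ => Real.exp (u / h)) '' Set.Ioi 0 = Set.Ioi 1 := by
  ext t
  simp only [Set.mem_image, Set.mem_Ioi]
  constructor
  · rintro ⟨u, hu, rfl⟩
    exact Real.one_lt_exp_iff.2 (by positivity)
  · intro ht
    refine ⟨h * Real.log t, mul_pos hh (Real.log_pos ht), ?_⟩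
    rw [mul_div_cancel_left₀ _ hh.ne', Real.exp_log (by linarith)]

lemma AA_eq_integral {h : ℝ} (hh : 0 < h) :
    AA h = ∫ u in Set.Ioi (0 : ℝ), RR ⌊Real.exp (u / h)⌋₊ * Real.exp (-u) := by
  have h1 := LSeries_eq_mul_integral_of_nonneg ff (r := h / 2) (s := (h : ℂ)) (by positivity)
    (by simpa using by linarith) (RR_isBigO (by positivity)) (fun n => by unfold ff; positivity)
  rw [AA_eq_LSeries hh] at h1
  have h2 : ∫ t in Set.Ioi (1 : ℝ), (∑ k ∈ Icc 1 ⌊t⌋₊, (ff k : ℂ)) * (t : ℂ) ^ (-((h : ℂ) + 1)) =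
      ((∫ t in Set.Ioi (1 : ℝ), RR ⌊t⌋₊ * t ^ (-(h + 1)) : ℝ) : ℂ) := by
    rw [← integral_complex_ofReal]
    apply setIntegral_congr_fun measurableSet_Ioi
    intro t ht
    have ht' : (1 : ℝ) < t := ht
    simp only
    rw [← Complex.ofReal_sum, sum_ff, Complex.ofReal_mul, Complex.ofReal_cpow (by linarith)]
    push_cast
    rfl
  rw [h2, ← Complex.ofReal_mul] at h1
  have h3 : AA h = h * ∫ t in Set.Ioi (1 : ℝ), RR ⌊t⌋₊ * t ^ (-(h + 1)) := by exact_mod_cast h1
  rw [h3, ← image_exp_div hh, integral_image_eq_integral_abs_deriv_smul measurableSet_Ioi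
    (f' := fun u : ℝ => Real.exp (u / h) * (1 / h)) ?_ ?_, ← integral_const_mul]
  · apply setIntegral_congr_fun measurableSet_Ioi
    intro u hu
    simp only [smul_eq_mul]
    rw [abs_of_nonneg (by positivity), ← Real.exp_mul]
    have h4 : Real.exp (u / h * (-(h + 1))) * Real.exp (u / h) = Real.exp (-u) := by
      rw [← Real.exp_add]
      congr 1
      field_simp
      ring
    rw [← h4]
    field_simp
  · intro u _
    apply HasDerivAt.hasDerivWithinAt
    exact ((hasDerivAt_id u).div_const h).exp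
  · intro a _ b _ hab
    have := Real.exp_injective hab
    field_simp at this
    exact this

lemma tendsto_AA : Tendsto (fun h : ℝ => AA h + Real.log h) (𝓝[>] 0)
    (𝓝 (mm - Real.eulerMascheroniConstant)) := by
  refine tendsto_JJ.congr' ?_
  have h1 : Set.Ioo (0 : ℝ) 1 ∈ 𝓝[>] (0 : ℝ) := Ioo_mem_nhdsGT one_pos
  filter_upwards [h1] with h hh
  have hexp : IntegrableOn (fun u : ℝ => Real.exp (-u)) (Set.Ioi 0) := integrableOn_exp_neg_Ioi 0
  have h2 : ∫ u in Set.Ioi (0 : ℝ), (RR ⌊Real.exp (u / h)⌋₊ + Real.log h) * Real.exp (-u) -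
      Real.log h * Real.exp (-u) =
      (∫ u in Set.Ioi (0 : ℝ), (RR ⌊Real.exp (u / h)⌋₊ + Real.log h) * Real.exp (-u)) -
      ∫ u in Set.Ioi (0 : ℝ), Real.log h * Real.exp (-u) :=
    integral_sub (JJ_int hh) (hexp.const_mul _)
  have h3 : ∀ u : ℝ, (RR ⌊Real.exp (u / h)⌋₊ + Real.log h) * Real.exp (-u) -
      Real.log h * Real.exp (-u) = RR ⌊Real.exp (u / h)⌋₊ * Real.exp (-u) := fun u => by ring
  simp only [h3] at h2
  rw [AA_eq_integral hh.1, h2, integral_const_mul, integral_exp_neg_Ioi_zero]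
  ring

/-! ### The zeta function -/

lemma prime_rpow_le {h : ℝ} (hh : 0 ≤ h) (p : Nat.Primes) :
    (p : ℝ) ^ (-(1 + h)) ≤ 1 / p ∧ (1 : ℝ) / p ≤ 1 / 2 ∧ 0 < (p : ℝ) ^ (-(1 + h)) := by
  have h2 : (2 : ℝ) ≤ (p : ℕ) := by exact_mod_cast p.2.two_le
  refine ⟨?_, one_div_le_one_div_of_le (by norm_num) h2, by positivity⟩
  calc ((p : ℕ) : ℝ) ^ (-(1 + h)) ≤ ((p : ℕ) : ℝ) ^ (-1 : ℝ) :=
        Real.rpow_le_rpow_of_exponent_le (by linarith) (by linarith)
    _ = 1 / (p : ℕ) := by rw [Real.rpow_neg_one, one_div]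

lemma log_norm_zeta {h : ℝ} (hh : 0 < h) :
    Real.log ‖riemannZeta ((1 + h : ℝ) : ℂ)‖ =
      ∑' p : Nat.Primes, -Real.log (1 - (p : ℝ) ^ (-(1 + h))) := by
  have hs : 1 < (((1 + h : ℝ) : ℂ)).re := by
    rw [Complex.ofReal_re]
    linarith
  rw [← riemannZeta_eulerProduct_exp_log hs]
  have h1 : ∀ p : Nat.Primes, -Complex.log (1 - ((p : ℕ) : ℂ) ^ (-((1 + h : ℝ) : ℂ))) =
      ((-Real.log (1 - (p : ℝ) ^ (-(1 + h))) : ℝ) : ℂ) := by
    intro p
    have hp := prime_rpow_le hh.le p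
    have h2 : (0 : ℝ) ≤ (p : ℕ) := by positivity
    rw [Complex.ofReal_neg, Complex.ofReal_log (by linarith [hp.1, hp.2.1]), Complex.ofReal_sub,
      Complex.ofReal_one, Complex.ofReal_cpow h2, Complex.ofReal_neg, Complex.ofReal_natCast]
  simp only [h1]
  rw [← Complex.ofReal_tsum, ← Complex.ofReal_exp, Complex.norm_real,
    Real.norm_of_nonneg (Real.exp_pos _).le, Real.log_exp]

/-- the remainder of the logarithm -/
noncomputable def gg (z : ℝ) : ℝ := -Real.log (1 - z) - z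

lemma gg_bounds {z : ℝ} (h0 : 0 ≤ z) (h1 : z ≤ 1 / 2) : 0 ≤ gg z ∧ gg z ≤ 2 * z ^ 2 := by
  unfold gg
  constructor
  · have := Real.log_le_sub_one_of_pos (show 0 < 1 - z by linarith)
    linarith
  · have h2 := Real.log_le_sub_one_of_pos (show 0 < (1 - z)⁻¹ by
      apply inv_pos.2
      linarith)
    rw [Real.log_inv] at h2
    have h3 : (1 - z)⁻¹ - 1 - z ≤ 2 * z ^ 2 := by
      have h4 : (1 - z)⁻¹ - 1 - z = z ^ 2 / (1 - z) := by
        have : 1 - z ≠ 0 := by linarith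
        field_simp
        ring
      rw [h4, div_le_iff₀ (by linarith)]
      nlinarith [sq_nonneg z]
    linarith

lemma continuousAt_gg {z : ℝ} (h1 : z ≤ 1 / 2) : ContinuousAt gg z := by
  unfold gg
  have : 1 - z ≠ 0 := by linarith
  have h2 : ContinuousAt (fun z : ℝ => Real.log (1 - z)) z :=
    ContinuousAt.log (by fun_prop) this
  exact h2.neg.sub continuousAt_id

/-- the constant `∑ (-log (1 - 1/p) - 1/p)` -/
noncomputable def GG : ℝ := ∑' p : Nat.Primes, gg (1 / (p : ℝ))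

lemma summable_sq : Summable fun p : Nat.Primes => 2 * (1 / (p : ℝ)) ^ 2 := by
  have h1 : Summable fun p : Nat.Primes => (p : ℝ) ^ (-2 : ℝ) :=
    Nat.Primes.summable_rpow.2 (by norm_num)
  refine (h1.mul_left 2).congr fun p => ?_
  have h2 : (0 : ℝ) ≤ (p : ℕ) := by positivity
  rw [Real.rpow_neg h2, one_div, inv_pow]
  norm_num

lemma gg_prime_bounds {h : ℝ} (hh : 0 ≤ h) (p : Nat.Primes) :
    ‖gg ((p : ℝ) ^ (-(1 + h)))‖ ≤ 2 * (1 / (p : ℝ)) ^ 2 := by
  obtain ⟨h1, h2, h3⟩ := prime_rpow_le hh p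
  obtain ⟨h4, h5⟩ := gg_bounds h3.le (h1.trans h2)
  rw [Real.norm_of_nonneg h4]
  refine h5.trans ?_
  gcongr

lemma gg_prime_bounds' (p : Nat.Primes) : ‖gg (1 / (p : ℝ))‖ ≤ 2 * (1 / (p : ℝ)) ^ 2 := by
  have := gg_prime_bounds (h := 0) le_rfl p
  simpa [Real.rpow_neg_one, one_div] using this

lemma summable_GG : Summable fun p : Nat.Primes => gg (1 / (p : ℝ)) :=
  Summable.of_norm_bounded summable_sq gg_prime_bounds'

lemma tendsto_gg_sum : Tendsto (fun h : ℝ => ∑' p : Nat.Primes, gg ((p : ℝ) ^ (-(1 + h))))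
    (𝓝[>] 0) (𝓝 GG) := by
  unfold GG
  apply tendsto_tsum_of_dominated_convergence summable_sq
  · intro p
    have h2 : (2 : ℝ) ≤ (p : ℕ) := by exact_mod_cast p.2.two_le
    have h3 : ContinuousAt gg (1 / (p : ℝ)) :=
      continuousAt_gg (one_div_le_one_div_of_le (by norm_num) h2)
    have h4 : Tendsto (fun h : ℝ => ((p : ℕ) : ℝ) ^ (-(1 + h))) (𝓝[>] 0) (𝓝 (1 / (p : ℕ))) := by
      have h5 : ContinuousAt (fun h : ℝ => ((p : ℕ) : ℝ) ^ (-(1 + h))) 0 := by
        apply ContinuousAt.rpow continuousAt_const (by fun_prop)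
        left
        linarith
      have h6 := h5.tendsto.mono_left (nhdsWithin_le_nhds (s := Set.Ioi 0))
      simpa [Real.rpow_neg_one, one_div] using h6
    exact h3.tendsto.comp h4
  · filter_upwards [self_mem_nhdsWithin] with h hh p
    exact gg_prime_bounds (le_of_lt hh) p

lemma log_norm_zeta' {h : ℝ} (hh : 0 < h) :
    Real.log ‖riemannZeta ((1 + h : ℝ) : ℂ)‖ =
      AA h + ∑' p : Nat.Primes, gg ((p : ℝ) ^ (-(1 + h))) := by
  rw [log_norm_zeta hh, AA, ← (summable_AA hh).tsum_add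
    (Summable.of_norm_bounded summable_sq (gg_prime_bounds hh.le))]
  apply tsum_congr
  intro p
  unfold gg
  ring

lemma tendsto_log_zeta :
    Tendsto (fun h : ℝ => Real.log ‖riemannZeta ((1 + h : ℝ) : ℂ)‖ + Real.log h) (𝓝[>] 0)
      (𝓝 0) := by
  have h1 : Tendsto (fun h : ℝ => ((1 + h : ℝ) : ℂ)) (𝓝[>] 0) (𝓝[≠] 1) := by
    apply tendsto_nhdsWithin_iff.2
    constructor
    · have h2 : Continuous fun h : ℝ => ((1 + h : ℝ) : ℂ) := by fun_prop
      have h3 := (h2.tendsto 0).mono_left (nhdsWithin_le_nhds (s := Set.Ioi 0))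
      simpa using h3
    · filter_upwards [self_mem_nhdsWithin] with h hh
      have hh' : (0 : ℝ) < h := hh
      simp only [Set.mem_compl_iff, Set.mem_singleton_iff]
      intro h2
      have h3 : (1 + h : ℝ) = 1 := by exact_mod_cast h2
      linarith
  have h2 := (riemannZeta_residue_one.comp h1).norm
  rw [norm_one] at h2
  have h3 := (Real.continuousAt_log one_ne_zero).tendsto.comp h2
  rw [Real.log_one] at h3
  refine h3.congr' ?_
  have h4 : Set.Ioo (0 : ℝ) 1 ∈ 𝓝[>] (0 : ℝ) := Ioo_mem_nhdsGT one_pos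
  filter_upwards [h4] with h hh
  simp only [Function.comp]
  have h5 : ((1 + h : ℝ) : ℂ) - 1 = (h : ℂ) := by
    push_cast
    ring
  rw [h5, norm_mul, Complex.norm_real, Real.norm_of_nonneg hh.1.le, Real.log_mul hh.1.ne', add_comm]
  rw [norm_ne_zero_iff]
  apply riemannZeta_ne_zero_of_one_le_re
  rw [Complex.ofReal_re]
  linarith [hh.1]

/-- **Identification of the constant.** -/
theorem mm_add_GG : mm + GG = Real.eulerMascheroniConstant := by
  have h1 : Tendsto (fun h : ℝ => (AA h + Real.log h) +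
      ∑' p : Nat.Primes, gg ((p : ℝ) ^ (-(1 + h)))) (𝓝[>] 0)
      (𝓝 (mm - Real.eulerMascheroniConstant + GG)) := tendsto_AA.add tendsto_gg_sum
  have h2 : Tendsto (fun h : ℝ => (AA h + Real.log h) +
      ∑' p : Nat.Primes, gg ((p : ℝ) ^ (-(1 + h)))) (𝓝[>] 0) (𝓝 0) := by
    refine tendsto_log_zeta.congr' ?_
    filter_upwards [self_mem_nhdsWithin] with h hh
    rw [log_norm_zeta' hh]
    ring
  have h3 := tendsto_nhds_unique h1 h2
  linarith

end Pool.Agent.H.MP_2e4794_nt.ZM
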