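import Pool.Agent.H.MP_2e4794_nt.ZM.M3b
import Pool.Agent.H.MP_2e4794_nt.ZM.EP

/-!
# Mertens' third theorem
-/

namespace Pool.Agent.H.MP_2e4794_nt.ZM

open Finset Filter Topology
open Pool.Agent.H.MP_3e6494_nt (prm mem_prm)

lemma prm_eq_prs (y : ℕ) : prm y = prs 0 y := by
  ext p
  rw [mem_prm, mem_prs]
  constructor
  · rintro ⟨h1, h2⟩
    exact ⟨⟨h1.pos, h2⟩, h1⟩
  · rintro ⟨⟨_, h2⟩, h1⟩
    exact ⟨h1, h2⟩

lemma tendsto_sum_gg : Tendsto (fun y : ℕ => ∑ p ∈ prs 0 y, gg (1 / (p : ℝ))) atTop (𝓝 GG) := by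
  have h1 : Summable ({p : ℕ | p.Prime}.indicator fun n : ℕ => gg (1 / (n : ℝ))) := by
    rw [← summable_subtype_iff_indicator]
    exact summable_GG
  have h2 : ∑' n : ℕ, ({p : ℕ | p.Prime}.indicator fun n : ℕ => gg (1 / (n : ℝ))) n = GG :=
    (_root_.tsum_subtype {p : ℕ | p.Prime} (fun n : ℕ => gg (1 / (n : ℝ)))).symm
  have h3 := (h1.hasSum.tendsto_sum_nat).comp (tendsto_add_atTop_nat 1)
  rw [h2] at h3
  refine h3.congr fun y => ?_
  simp only [Function.comp]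
  rw [← Finset.sum_subset (s₁ := prs 0 y)]
  · apply sum_congr rfl
    intro p hp
    rw [mem_prs] at hp
    rw [Set.indicator_of_mem (by exact hp.2)]
  · intro p hp
    rw [mem_prs] at hp
    rw [mem_range]
    omega
  · intro n hn hn'
    rw [mem_range] at hn
    rw [Set.indicator_of_notMem]
    intro hp
    apply hn'
    have hp' : n.Prime := hp
    rw [mem_prs]
    exact ⟨⟨hp'.pos, by omega⟩, hp'⟩

lemma prod_eq_exp (y : ℕ) : ∏ p ∈ prs 0 y, (1 - 1 / (p : ℝ))⁻¹ =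
    Real.exp (RR y + ∑ p ∈ prs 0 y, gg (1 / (p : ℝ))) := by
  unfold RR Pool.MP42e49e.FF
  rw [prm_eq_prs, ← sum_add_distrib, Real.exp_sum]
  apply prod_congr rfl
  intro p hp
  rw [mem_prs] at hp
  have h2 : (2 : ℝ) ≤ p := by exact_mod_cast hp.2.two_le
  have h3 : 1 / (p : ℝ) ≤ 1 / 2 := one_div_le_one_div_of_le (by norm_num) h2
  unfold gg
  rw [add_sub_cancel, Real.exp_neg, Real.exp_log (by linarith)]

/-- **Mertens' third theorem.** -/
theorem mertens_minus : Tendsto (fun y : ℕ => (∏ p ∈ prs 0 y, (1 - 1 / (p : ℝ))⁻¹) / Real.log y)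
    atTop (𝓝 (Real.exp Real.eulerMascheroniConstant)) := by
  have h1 := (Real.continuous_exp.tendsto _).comp (tendsto_mm.add tendsto_sum_gg)
  rw [mm_add_GG] at h1
  refine h1.congr' ?_
  filter_upwards [eventually_ge_atTop 3] with y hy
  have hy' : (3 : ℝ) ≤ y := by exact_mod_cast hy
  have h2 : 0 < Real.log y := Real.log_pos (by linarith)
  simp only [Function.comp]
  rw [prod_eq_exp, eq_div_iff h2.ne']
  nth_rewrite 2 [← Real.exp_log h2]
  rw [← Real.exp_add]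
  congr 1
  ring

lemma tendsto_prod_sq : Tendsto (fun y : ℕ => ∏ p ∈ prs 0 y, (1 - 1 / (p : ℝ) ^ 2)⁻¹) atTop
    (𝓝 (Real.pi ^ 2 / 6)) := by
  have h1 := (riemannZeta_eulerProduct (s := 2) (by norm_num)).comp (tendsto_add_atTop_nat 1)
  rw [riemannZeta_two] at h1
  have h2 := (Complex.continuous_re.tendsto _).comp h1
  have h3 : ((Real.pi : ℂ) ^ 2 / 6).re = Real.pi ^ 2 / 6 := by
    have : ((Real.pi : ℂ) ^ 2 / 6) = ((Real.pi ^ 2 / 6 : ℝ) : ℂ) := by push_cast; ring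
    rw [this, Complex.ofReal_re]
  rw [h3] at h2
  refine h2.congr fun y => ?_
  simp only [Function.comp]
  have h4 : ∏ p ∈ Nat.primesBelow (y + 1), (1 - (p : ℂ) ^ (-2 : ℂ))⁻¹ =
      ((∏ p ∈ prs 0 y, (1 - 1 / (p : ℝ) ^ 2)⁻¹ : ℝ) : ℂ) := by
    rw [Complex.ofReal_prod]
    have h5 : Nat.primesBelow (y + 1) = prs 0 y := by
      ext p
      rw [Nat.mem_primesBelow, mem_prs]
      constructor
      · rintro ⟨h2, h3⟩
        exact ⟨⟨h3.pos, by omega⟩, h3⟩
      · rintro ⟨⟨h2, h3⟩, h4⟩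
        exact ⟨by omega, h4⟩
    rw [h5]
    apply prod_congr rfl
    intro p _
    rw [Complex.cpow_neg]
    push_cast
    rw [one_div]
    norm_cast
  rw [h4, Complex.ofReal_re]

/-- **Mertens' third theorem, with `1 + 1/p`.** -/
theorem mertens_plus : Tendsto (fun y : ℕ => (∏ p ∈ prs 0 y, (1 + 1 / (p : ℝ))) / Real.log y)
    atTop (𝓝 (6 / Real.pi ^ 2 * Real.exp Real.eulerMascheroniConstant)) := by
  have hpi : Real.pi ^ 2 / 6 ≠ 0 := by positivity
  have h1 := (tendsto_prod_sq.inv₀ hpi).mul mertens_minus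
  rw [inv_div] at h1
  refine h1.congr fun y => ?_
  rw [← mul_div_assoc, ← Finset.prod_inv_distrib, ← prod_mul_distrib]
  congr 1
  apply prod_congr rfl
  intro p hp
  rw [mem_prs] at hp
  have h2 : (2 : ℝ) ≤ p := by exact_mod_cast hp.2.two_le
  have h3 : (p : ℝ) - 1 ≠ 0 := by linarith
  have h4 : (p : ℝ) ≠ 0 := by linarith
  have h5 : (1 : ℝ) - 1 / p = (p - 1) / p := by field_simp
  rw [inv_inv, h5, inv_div]
  field_simp
  ring

end Pool.Agent.H.MP_2e4794_nt.ZM
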