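import Pool.Agent.H.MP_2e4794_nt.ZM.Near

/-!
# Counting the unit intervals with a large value
-/

namespace Pool.Agent.H.MP_2e4794_nt.ZM

open Finset Filter Topology MeasureTheory

lemma measure_count (S : Finset ℕ) {ρ : ℝ} (hρ0 : 0 < ρ) (c : ℕ → ℝ)
    (hc : ∀ n ∈ S, (n : ℝ) ≤ c n ∧ c n + ρ ≤ n + 1) (E : Set ℝ)
    (hE : ∀ n ∈ S, Set.Ioo (c n) (c n + ρ) ⊆ E) (a b : ℝ)
    (hab : ∀ n ∈ S, a ≤ n ∧ (n : ℝ) + 1 ≤ b) :
    S.card * ρ ≤ (volume.restrict (Set.Ioc a b)).real E := by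
  have h1 : (volume.restrict (Set.Ioc a b)).real (⋃ n ∈ S, Set.Ioo (c n) (c n + ρ)) =
      ∑ n ∈ S, (volume.restrict (Set.Ioc a b)).real (Set.Ioo (c n) (c n + ρ)) := by
    apply measureReal_biUnion_finset
    · intro m hm n hn hmn
      rw [Function.onFun, Set.disjoint_left]
      intro t ht1 ht2
      have m1 := hc m hm
      have n1 := hc n hn
      rcases lt_or_gt_of_ne hmn with h | h
      · have : (m : ℝ) + 1 ≤ n := by exact_mod_cast h
        linarith [ht1.2, ht2.1]
      · have : (n : ℝ) + 1 ≤ m := by exact_mod_cast h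
        linarith [ht1.1, ht2.2]
    · intro n _
      exact measurableSet_Ioo
    · intro n _
      exact (measure_lt_top _ _).ne
  have h2 : ∀ n ∈ S, (volume.restrict (Set.Ioc a b)).real (Set.Ioo (c n) (c n + ρ)) = ρ := by
    intro n hn
    rw [measureReal_restrict_apply measurableSet_Ioo, Set.inter_eq_left.2]
    · rw [Real.volume_real_Ioo_of_le (by linarith)]
      ring
    · intro t ht
      have h3 := hc n hn
      have h4 := hab n hn
      exact ⟨by linarith [ht.1], by linarith [ht.2]⟩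
  rw [sum_congr rfl h2, sum_const, nsmul_eq_mul] at h1
  rw [← h1]
  apply measureReal_mono
  · exact Set.iUnion₂_subset hE
  · exact (measure_lt_top _ _).ne

/-- the exceptional set -/
def EE (A B L : ℝ) : Set ℝ := ⋃ j ∈ range (JJ L),
  {t : ℝ | 1 / Real.log ((yy A B * 2 ^ j : ℕ) : ℝ) ^ 2 ≤ ‖SS (yy A B * 2 ^ j) (sg L) t‖}

lemma EE_measure (A η : ℝ) (hA : 0 < A) (hη : 0 < η) :
    ∀ᶠ B : ℝ in atTop, ∀ L : ℝ, B ≤ L → (volume.restrict (Set.Ioc (Real.exp L)
      (Real.exp L + (Real.exp B + 1)))).real (EE A B L) ≤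
      3 * L ^ 74 * Real.exp ((1 / A + η) * B) := by
  have hlog12 : ∀ᶠ L : ℝ in atTop, A * Real.log L + (2 * L ^ 11 + 1) ≤ L ^ 12 := by
    have t1 : Tendsto (fun L : ℝ => Real.log L / L) atTop (𝓝 0) := by
      have := (isLittleO_log_rpow_atTop (r := 1) one_pos).tendsto_div_nhds_zero
      simpa using this
    have t2 := t1.const_mul A
    rw [mul_zero] at t2
    filter_upwards [t2.eventually (gt_mem_nhds one_pos), eventually_ge_atTop 10] with L h1 hL10
    have hL0 : 0 < L := by linarith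
    have h2 : A * Real.log L ≤ L := by
      rw [← mul_div_assoc, div_lt_iff₀ hL0] at h1
      linarith
    have h3 : (1 : ℝ) ≤ L ^ 11 := one_le_pow₀ (by linarith)
    have h4 : L ≤ L ^ 11 := by
      calc L = L ^ 1 := (pow_one L).symm
        _ ≤ L ^ 11 := pow_le_pow_right₀ (by linarith) (by norm_num)
    have h5 : L ^ 12 = L * L ^ 11 := by ring
    rw [h5]
    nlinarith
  obtain ⟨L0, hlog12'⟩ := eventually_atTop.1 hlog12
  have hhalf : ∀ᶠ L : ℝ in atTop, 2 ≤ L ^ A := (tendsto_rpow_atTop hA).eventually_ge_atTop 2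
  filter_upwards [asym A η hA hη, eventually_ge_atTop L0, hhalf, eventually_ge_atTop 10,
    (tendsto_yy hA).eventually_ge_atTop 2] with B has hBL0 hhalf hB10 hy2
  intro L hBL
  have hlog12 := hlog12' L (hBL0.trans hBL)
  have hL0 : 0 < L := by linarith
  have hB0 : 0 < B := by linarith
  have hL10 : 10 ≤ L := by linarith
  set H : ℝ := Real.exp B + 1 with hH
  have hexp1 : 1 ≤ Real.exp B := Real.one_le_exp hB0.le
  have hσ : 1 ≤ sg L := by
    unfold sg
    have : 0 < 1 / L ^ 10 := by positivity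
    linarith
  have hj : ∀ j ∈ range (JJ L), (volume.restrict (Set.Ioc (Real.exp L) (Real.exp L + H))).real
      {t : ℝ | 1 / Real.log ((yy A B * 2 ^ j : ℕ) : ℝ) ^ 2 ≤ ‖SS (yy A B * 2 ^ j) (sg L) t‖} ≤
      L ^ 63 * Real.exp ((1 / A + η) * B) := by
    intro j hj
    rw [mem_range] at hj
    set P : ℕ := yy A B * 2 ^ j with hP
    have hyP : yy A B ≤ P := Nat.le_mul_of_pos_right _ (by positivity)
    have hP2 : 2 ≤ P := hy2.trans hyP
    have hP2' : (2 : ℝ) ≤ P := by exact_mod_cast hP2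
    have hδ : 0 < 1 / Real.log (P : ℝ) ^ 2 := by
      have : 0 < Real.log (P : ℝ) := Real.log_pos (by linarith)
      positivity
    refine (meas_le (by omega) ⌈B / Real.log P⌉₊ hσ (Real.exp L) H (by linarith) hδ).trans ?_
    apply has L hBL P _ _ H (by linarith) (by linarith)
    · have h1 : B ^ A < yy A B + 1 := Nat.lt_floor_add_one _
      have h2 : ((yy A B : ℕ) : ℝ) ≤ P := by exact_mod_cast hyP
      linarith
    · rw [← Real.log_le_iff_le_exp (by linarith)]
      have h1 : (P : ℝ) = (yy A B : ℝ) * 2 ^ j := by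
        rw [hP]
        push_cast
        ring
      have hy0 : (0 : ℝ) < yy A B := by exact_mod_cast (by omega : 0 < yy A B)
      rw [h1, Real.log_mul hy0.ne' (by positivity), Real.log_pow]
      have h2 := log_yy_le (A := A) hB0 (show 1 ≤ yy A B by omega)
      have h2' : A * Real.log B ≤ A * Real.log L :=
        mul_le_mul_of_nonneg_left (Real.log_le_log hB0 hBL) hA.le
      have h3 : (j : ℝ) ≤ 2 * L ^ 11 + 1 := by
        have h4 : (j : ℝ) ≤ JJ L := by exact_mod_cast hj.le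
        have h5 : (JJ L : ℝ) < 2 * L ^ 11 + 1 := Nat.ceil_lt_add_one (by positivity)
        linarith
      have h4 : (j : ℝ) * Real.log 2 ≤ (2 * L ^ 11 + 1) * 1 := by
        apply mul_le_mul h3 _ (Real.log_nonneg (by norm_num)) (by positivity)
        have := Real.log_two_lt_d9
        linarith
      linarith
  unfold EE
  refine (measureReal_biUnion_finset_le _ _).trans ?_
  refine (sum_le_sum hj).trans ?_
  rw [sum_const, nsmul_eq_mul, card_range]
  have h5 : (JJ L : ℝ) < 2 * L ^ 11 + 1 := Nat.ceil_lt_add_one (by positivity)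
  have h6 : (1 : ℝ) ≤ L ^ 11 := one_le_pow₀ (by linarith)
  calc (JJ L : ℝ) * (L ^ 63 * Real.exp ((1 / A + η) * B)) ≤
      (3 * L ^ 11) * (L ^ 63 * Real.exp ((1 / A + η) * B)) := by
        apply mul_le_mul_of_nonneg_right _ (by positivity)
        linarith
    _ = 3 * L ^ 74 * Real.exp ((1 / A + η) * B) := by ring

/-- The unit intervals `[n, n+1]` in `[x, x + H]` which contain a `u` with a value of `ζ(1+iu)` or
of its inverse that is larger than the threshold. -/
def Bad (A x H : ℝ) : Set ℕ := {n : ℕ | x ≤ n ∧ (n : ℝ) ≤ x + H ∧ ∃ u : ℝ, (n : ℝ) ≤ u ∧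
    u ≤ n + 1 ∧ (A * Real.exp Real.eulerMascheroniConstant * Real.log (Real.log H) ≤
        ‖riemannZeta (1 + u * Complex.I)‖ ∨
      A * (6 / Real.pi ^ 2) * Real.exp Real.eulerMascheroniConstant * Real.log (Real.log H) ≤
        ‖riemannZeta (1 + u * Complex.I)‖⁻¹)}

lemma Bad_finite (A x H : ℝ) : (Bad A x H).Finite := by
  apply (Set.finite_Iic ⌊x + H⌋₊).subset
  intro n hn
  exact Nat.le_floor hn.2.1

theorem count {A ε : ℝ} (hA : 0 < A) (hε : 0 < ε) :
    ∀ᶠ B : ℝ in atTop, ∀ L : ℝ, B ≤ L → ((Bad A (Real.exp L) (Real.exp B)).ncard : ℝ) ≤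
      L ^ 80 * Real.exp ((1 / A + ε) * B) := by
  -- choice of `A'` and `θ`
  have h0 : 1 / (1 / A + ε / 2) < A := by
    rw [div_lt_iff₀ (by positivity)]
    have : A * (1 / A + ε / 2) = 1 + A * (ε / 2) := by
      field_simp
    rw [this]
    have : 0 < A * (ε / 2) := by positivity
    linarith
  obtain ⟨A', hA'1, hA'2⟩ := exists_between h0
  have hA' : 0 < A' := lt_trans (by positivity) hA'1
  have hβA' : 1 / A' ≤ 1 / A + ε / 2 := by
    rw [div_lt_iff₀ (by positivity)] at hA'1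
    rw [div_le_iff₀ hA']
    linarith
  have h1 : 1 < A / A' := by
    rw [one_lt_div hA']
    exact hA'2
  obtain ⟨θ, hθ1, hθ2⟩ := exists_between h1
  have hθA : θ * A' < A := by
    rwa [lt_div_iff₀ hA'] at hθ2
  filter_upwards [bad_imp hA' hθ1 hθA, EE_measure A' (ε / 2) hA' (by positivity),
    eventually_ge_atTop 10] with B hbad hmeas hB10
  intro L hBL
  have hL10 : 10 ≤ L := hB10.trans hBL
  have hL0 : 0 < L := by linarith
  have hB0 : 0 < B := by linarith
  set x : ℝ := Real.exp L with hx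
  have hx1 : L + 1 ≤ x := Real.add_one_le_exp L
  set H0 : ℝ := Real.exp B with hH0
  have hH0x : H0 ≤ x := by
    rw [hH0, hx, Real.exp_le_exp]
    exact hBL
  set ρ : ℝ := 1 / L ^ 3 with hρ
  have hρ0 : 0 < ρ := by positivity
  have hρ1 : ρ ≤ 1 / 2 := by
    rw [hρ]
    apply one_div_le_one_div_of_le (by norm_num)
    calc (2 : ℝ) ≤ 10 ^ 3 := by norm_num
      _ ≤ L ^ 3 := by gcongr
  have hBfin : (Bad A x H0).Finite := Bad_finite A x H0
  set S : Finset ℕ := hBfin.toFinset with hS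
  have hcard : ((Bad A x H0).ncard : ℝ) = S.card := by
    rw [Set.ncard_eq_toFinset_card _ hBfin]
  rw [hcard]
  have hmemS : ∀ n ∈ S, n ∈ Bad A x H0 := by
    intro n hn
    exact hBfin.mem_toFinset.1 hn
  have hlogH0 : Real.log H0 = B := Real.log_exp B
  have hex : ∀ n : ℕ, ∃ c : ℝ, n ∈ S → (((n : ℝ) ≤ c ∧ c + ρ ≤ n + 1) ∧
      Set.Ioo c (c + ρ) ⊆ EE A' B L) := by
    intro n
    by_cases hn : n ∈ S
    · obtain ⟨hn1, hn2, u, hu1, hu2, hu3⟩ := hmemS n hn
      rw [hlogH0] at hu3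
      have key : ∀ t : ℝ, (n : ℝ) ≤ t → t ≤ n + 1 → |t - u| ≤ ρ → t ∈ EE A' B L := by
        intro t ht1 ht2 ht3
        obtain ⟨j, hj1, hj2⟩ := hbad L hBL u t (by linarith) (by linarith) (by linarith)
          (by linarith) ht3 hu3
        unfold EE
        simp only [Set.mem_iUnion, Set.mem_ofPred_eq]
        exact ⟨j, mem_range.2 hj1, hj2⟩
      rcases le_or_gt (u + ρ) (n + 1) with h2 | h2
      · refine ⟨u, fun _ => ⟨⟨hu1, h2⟩, fun t ht => key t (by linarith [ht.1]) (by linarith [ht.2]) ?_⟩⟩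
        rw [abs_le]
        constructor <;> linarith [ht.1, ht.2]
      · refine ⟨u - ρ, fun _ => ⟨⟨by linarith, by linarith⟩, fun t ht =>
          key t (by linarith [ht.1]) (by linarith [ht.2]) ?_⟩⟩
        rw [abs_le]
        constructor <;> linarith [ht.1, ht.2]
    · exact ⟨0, fun h => absurd h hn⟩
  choose c hc using hex
  have hcount := measure_count S hρ0 c (fun n hn => (hc n hn).1) (EE A' B L)
    (fun n hn => (hc n hn).2) x (x + (H0 + 1)) (fun n hn => by
      obtain ⟨hn1, hn2, _⟩ := hmemS n hn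
      exact ⟨hn1, by linarith⟩)
  have h2 : (S.card : ℝ) * ρ ≤ 3 * L ^ 74 * Real.exp ((1 / A' + ε / 2) * B) :=
    hcount.trans (hmeas L hBL)
  have h3 : Real.exp ((1 / A' + ε / 2) * B) ≤ Real.exp ((1 / A + ε) * B) := by
    rw [Real.exp_le_exp]
    apply mul_le_mul_of_nonneg_right _ hB0.le
    linarith
  have h4 : 3 * L ^ 77 ≤ L ^ 80 := by
    have h5 : L ^ 80 = L ^ 3 * L ^ 77 := by ring
    have h6 : (3 : ℝ) ≤ L ^ 3 := by
      calc (3 : ℝ) ≤ 10 ^ 3 := by norm_num
        _ ≤ L ^ 3 := by gcongr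
    rw [h5]
    exact mul_le_mul_of_nonneg_right h6 (by positivity)
  calc (S.card : ℝ) = (S.card * ρ) * L ^ 3 := by
        rw [hρ]
        field_simp
    _ ≤ (3 * L ^ 74 * Real.exp ((1 / A' + ε / 2) * B)) * L ^ 3 :=
        mul_le_mul_of_nonneg_right h2 (by positivity)
    _ = 3 * L ^ 77 * Real.exp ((1 / A' + ε / 2) * B) := by ring
    _ ≤ L ^ 80 * Real.exp ((1 / A + ε) * B) :=
        mul_le_mul h4 h3 (Real.exp_pos _).le (by positivity)

end Pool.Agent.H.MP_2e4794_nt.ZM
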