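import Pool.Agent.H.MP_2e4794_nt.ZM.MV
import Pool.Agent.H.MP_2e4794_nt.ZM.EP

/-!
# High moments of a short sum over primes
-/

namespace Pool.Agent.H.MP_2e4794_nt.ZM

open Finset Filter Topology MeasureTheory

/-- the tuples of primes from `(P, 2P]` -/
def tup (P k : ℕ) : Finset (Fin k → ℕ) := Fintype.piFinset fun _ : Fin k => prs P (2 * P)

/-- the number of representations of `n` as an ordered product of `k` primes from `(P, 2P]` -/
def rep (P k n : ℕ) : ℕ := ((tup P k).filter fun f => ∏ i, f i = n).card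

lemma rep_le (P k n : ℕ) : rep P k n ≤ k.factorial := by
  unfold rep
  rcases ((tup P k).filter fun f => ∏ i, f i = n).eq_empty_or_nonempty with h | ⟨f0, hf0⟩
  · rw [h]
    simp
  · have key : ∀ f ∈ (tup P k).filter fun f => ∏ i, f i = n,
        (List.ofFn f).Perm n.primeFactorsList := by
      intro f hf
      rw [mem_filter, tup, Fintype.mem_piFinset] at hf
      apply Nat.primeFactorsList_unique
      · rw [List.prod_ofFn]
        exact hf.2
      · intro p hp
        rw [List.mem_ofFn] at hp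
        obtain ⟨i, rfl⟩ := hp
        exact (mem_prs.1 (hf.1 i)).2
    have hlen : n.primeFactorsList.length = k := by
      rw [← (key f0 hf0).length_eq, List.length_ofFn]
    calc ((tup P k).filter fun f => ∏ i, f i = n).card
        ≤ (n.primeFactorsList.permutations.toFinset).card := by
          apply Finset.card_le_card_of_injOn (fun f => List.ofFn f)
          · intro f hf
            rw [mem_coe, List.mem_toFinset, List.mem_permutations]
            exact key f (by simpa using hf)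
          · intro f _ g _ hfg
            exact List.ofFn_injective hfg
      _ ≤ n.primeFactorsList.permutations.length := List.toFinset_card_le _
      _ = k.factorial := by rw [List.length_permutations, hlen]

lemma prod_mem_Icc {P k : ℕ} {f : Fin k → ℕ} (hf : f ∈ tup P k) :
    ∏ i, f i ∈ Icc 1 ((2 * P) ^ k) := by
  rw [tup, Fintype.mem_piFinset] at hf
  rw [mem_Icc]
  constructor
  · apply Nat.succ_le_of_lt
    apply Finset.prod_pos
    intro i _
    exact (mem_prs.1 (hf i)).2.pos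
  · calc ∏ i, f i ≤ ∏ _i : Fin k, (2 * P) := by
          apply Finset.prod_le_prod'
          intro i _
          exact (mem_prs.1 (hf i)).1.2
      _ = (2 * P) ^ k := by simp

lemma pow_sum_eq (P k : ℕ) {R : Type*} [CommSemiring R] (z : ℕ → R) :
    (∑ p ∈ prs P (2 * P), z p) ^ k = ∑ f ∈ tup P k, ∏ i, z (f i) := by
  have := Finset.prod_univ_sum (ι := Fin k) (fun _ => prs P (2 * P)) (fun _ p => z p)
  rw [← tup] at this
  rw [← this]
  simp

lemma cpow_prod {k : ℕ} (f : Fin k → ℕ) {s : ℂ} (hs : s ≠ 0) :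
    ∏ i, ((f i : ℕ) : ℂ) ^ (-s) = ((∏ i, f i : ℕ) : ℂ) ^ (-s) := by
  have := map_prod (riemannZetaSummandHom hs) f univ
  exact this.symm

lemma sq_sum_le {P : ℕ} (hP : 1 ≤ P) {σ : ℝ} (hσ : 1 ≤ σ) :
    ∑ p ∈ prs P (2 * P), ((p : ℝ) ^ (-σ)) ^ 2 ≤ 1 / P := by
  have hP1 : (1 : ℝ) ≤ P := by exact_mod_cast hP
  calc ∑ p ∈ prs P (2 * P), ((p : ℝ) ^ (-σ)) ^ 2 ≤ ∑ p ∈ prs P (2 * P), (1 / (P : ℝ)) ^ 2 := by
        apply sum_le_sum
        intro p hp
        rw [mem_prs] at hp
        have h1 : (P : ℝ) ≤ p := by exact_mod_cast hp.1.1.le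
        have h2 : (p : ℝ) ^ (-σ) ≤ 1 / P := by
          calc (p : ℝ) ^ (-σ) ≤ (p : ℝ) ^ (-1 : ℝ) :=
                Real.rpow_le_rpow_of_exponent_le (by linarith) (by linarith)
            _ = 1 / p := by rw [Real.rpow_neg_one, one_div]
            _ ≤ 1 / P := one_div_le_one_div_of_le (by linarith) h1
        have h3 : 0 ≤ (p : ℝ) ^ (-σ) := by positivity
        gcongr
    _ = (prs P (2 * P)).card * (1 / (P : ℝ)) ^ 2 := by rw [sum_const, nsmul_eq_mul]
    _ ≤ P * (1 / (P : ℝ)) ^ 2 := by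
        apply mul_le_mul_of_nonneg_right _ (by positivity)
        have : (prs P (2 * P)).card ≤ P := by
          calc (prs P (2 * P)).card ≤ (Ioc P (2 * P)).card := card_filter_le _ _
            _ = P := by rw [Nat.card_Ioc]; omega
        exact_mod_cast this
    _ = 1 / P := by
        field_simp

/-- **High moments.** -/
theorem moment {P : ℕ} (hP : 1 ≤ P) (k : ℕ) {σ : ℝ} (hσ : 1 ≤ σ) (x H : ℝ) (hH : 0 ≤ H) :
    ∫ t in x..(x + H), ‖∑ p ∈ prs P (2 * P), (p : ℂ) ^ (-(σ + t * Complex.I))‖ ^ (2 * k) ≤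
      (H + 4 * (2 * P : ℝ) ^ k * (1 + k * Real.log (2 * P))) * (k.factorial * (1 / P : ℝ) ^ k) := by
  set N : ℕ := (2 * P) ^ k with hN
  set a : ℕ → ℂ := fun n => (rep P k n : ℂ) * ((n : ℝ) ^ (-σ) : ℝ) with ha
  have hpt : ∀ t : ℝ, ‖∑ p ∈ prs P (2 * P), (p : ℂ) ^ (-(σ + t * Complex.I))‖ ^ (2 * k) =
      ‖∑ n ∈ Icc 1 N, a n * Complex.exp (-(Real.log n * Complex.I) * t)‖ ^ 2 := by
    intro t
    have hs : (σ + t * Complex.I) ≠ 0 := by
      intro h
      have := congrArg Complex.re h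
      simp at this
      linarith
    rw [mul_comm 2 k, pow_mul, ← norm_pow, pow_sum_eq]
    congr 2
    have h1 : ∑ f ∈ tup P k, ∏ i, ((f i : ℕ) : ℂ) ^ (-(σ + t * Complex.I)) =
        ∑ n ∈ Icc 1 N, ∑ f ∈ (tup P k).filter (fun f => ∏ i, f i = n),
          ∏ i, ((f i : ℕ) : ℂ) ^ (-(σ + t * Complex.I)) :=
      (Finset.sum_fiberwise_of_maps_to (fun f hf => prod_mem_Icc hf) _).symm
    rw [h1]
    apply sum_congr rfl
    intro n hn
    rw [mem_Icc] at hn
    have hn0 : (0 : ℝ) < n := by exact_mod_cast hn.1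
    have h2 : ∀ f ∈ (tup P k).filter (fun f => ∏ i, f i = n),
        ∏ i, ((f i : ℕ) : ℂ) ^ (-(σ + t * Complex.I)) = (n : ℂ) ^ (-(σ + t * Complex.I)) := by
      intro f hf
      rw [mem_filter] at hf
      rw [cpow_prod f hs, hf.2]
    rw [sum_congr rfl h2, sum_const, nsmul_eq_mul, ← rep]
    simp only [ha]
    rw [mul_assoc]
    congr 1
    rw [Complex.ofReal_cpow hn0.le, Complex.ofReal_natCast, neg_add, Complex.cpow_add _ _ (by
      exact_mod_cast hn0.ne'), Complex.ofReal_neg]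
    congr 1
    rw [Complex.cpow_def_of_ne_zero (by exact_mod_cast hn0.ne'), ← Complex.natCast_log]
    congr 1
    ring
  simp only [hpt]
  refine (mean_value N a x H hH).trans ?_
  have hlog : Real.log (N : ℝ) = k * Real.log (2 * P) := by
    rw [hN]
    push_cast
    rw [Real.log_pow]
  have hNr : (N : ℝ) = (2 * P : ℝ) ^ k := by
    rw [hN]
    push_cast
    ring
  rw [hlog, hNr]
  have h2P : 0 ≤ Real.log (2 * P) := by
    apply Real.log_nonneg
    have : (1 : ℝ) ≤ P := by exact_mod_cast hP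
    linarith
  apply mul_le_mul_of_nonneg_left _ (by positivity)
  have h3 : ∀ n ∈ Icc 1 N, ‖a n‖ ^ 2 ≤ k.factorial *
      ∑ f ∈ (tup P k).filter (fun f => ∏ i, f i = n), ∏ i, (((f i : ℕ) : ℝ) ^ (-σ)) ^ 2 := by
    intro n hn
    rw [mem_Icc] at hn
    have hn0 : (0 : ℝ) < n := by exact_mod_cast hn.1
    have h4 : ∀ f ∈ (tup P k).filter (fun f => ∏ i, f i = n),
        ∏ i, (((f i : ℕ) : ℝ) ^ (-σ)) ^ 2 = ((n : ℝ) ^ (-σ)) ^ 2 := by
      intro f hf
      rw [mem_filter] at hf
      rw [Finset.prod_pow, Real.finsetProd_rpow _ _ (fun i _ => by positivity), ← hf.2]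
      push_cast
      rfl
    rw [sum_congr rfl h4, sum_const, nsmul_eq_mul, ← rep]
    simp only [ha]
    rw [norm_mul, Complex.norm_natCast, Complex.norm_real, Real.norm_of_nonneg (by positivity),
      mul_pow]
    have h5 : (rep P k n : ℝ) ≤ k.factorial := by exact_mod_cast rep_le P k n
    have h6 : (0 : ℝ) ≤ rep P k n := by positivity
    have h7 : (0 : ℝ) ≤ ((n : ℝ) ^ (-σ)) ^ 2 := by positivity
    calc (rep P k n : ℝ) ^ 2 * ((n : ℝ) ^ (-σ)) ^ 2 =
        rep P k n * (rep P k n * ((n : ℝ) ^ (-σ)) ^ 2) := by ring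
      _ ≤ k.factorial * (rep P k n * ((n : ℝ) ^ (-σ)) ^ 2) :=
        mul_le_mul_of_nonneg_right h5 (by positivity)
  refine (sum_le_sum h3).trans ?_
  rw [← mul_sum, Finset.sum_fiberwise_of_maps_to (fun f hf => prod_mem_Icc hf),
    ← pow_sum_eq P k (fun p : ℕ => ((p : ℝ) ^ (-σ)) ^ 2)]
  apply mul_le_mul_of_nonneg_left _ (by positivity)
  apply pow_le_pow_left₀
  · exact sum_nonneg fun _ _ => by positivity
  · exact sq_sum_le hP hσ

end Pool.Agent.H.MP_2e4794_nt.ZM
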