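import Pool.Agent.H.MP_2e4794_nt.ZM.ZB

/-!
# Continuity of the zeta function on `Re s ≥ 1`, quantitatively
-/

namespace Pool.Agent.H.MP_2e4794_nt.ZM

open Finset Filter Topology

lemma cpow_diff {s s' : ℂ} (hs : 1 ≤ s.re) (hs' : 1 ≤ s'.re) {n : ℕ} (hn : 1 ≤ n) :
    ‖(n : ℂ) ^ (-s) - (n : ℂ) ^ (-s')‖ ≤ ‖s - s'‖ * (Real.log n / n) := by
  have hn1 : (1 : ℝ) ≤ n := by exact_mod_cast hn
  have hn0 : (n : ℂ) ≠ 0 := by exact_mod_cast (by omega : n ≠ 0)
  have hl : 0 ≤ Real.log n := Real.log_nonneg hn1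
  have hconv : Convex ℝ {z : ℂ | 1 ≤ z.re} := convex_halfSpace_re_ge 1
  have hd : ∀ z ∈ {z : ℂ | 1 ≤ z.re}, HasDerivWithinAt (fun z : ℂ => (n : ℂ) ^ (-z))
      ((n : ℂ) ^ (-z) * Complex.log n * (-1)) {z : ℂ | 1 ≤ z.re} z := by
    intro z _
    have h1 : HasDerivAt (fun z : ℂ => -z) (-1) z := hasDerivAt_neg z
    exact (h1.const_cpow (Or.inl hn0)).hasDerivWithinAt
  have hb : ∀ z ∈ {z : ℂ | 1 ≤ z.re}, ‖(n : ℂ) ^ (-z) * Complex.log n * (-1)‖ ≤
      Real.log n / n := by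
    intro z hz
    have hz' : 1 ≤ z.re := hz
    rw [norm_mul, norm_mul, norm_neg, norm_one, mul_one]
    have h1 : ‖(n : ℂ) ^ (-z)‖ ≤ 1 / n := by
      have := norm_cpow_real (x := n) (by linarith) (-z)
      rw [Complex.ofReal_natCast] at this
      rw [this, Complex.neg_re, one_div, ← Real.rpow_neg_one]
      apply Real.rpow_le_rpow_of_exponent_le hn1
      linarith
    have h2 : ‖Complex.log n‖ = Real.log n := by
      rw [← Complex.ofReal_natCast, ← Complex.ofReal_log (by linarith), Complex.norm_real,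
        Real.norm_of_nonneg hl]
    rw [h2]
    calc _ ≤ 1 / (n : ℝ) * Real.log n := mul_le_mul_of_nonneg_right h1 hl
      _ = _ := by ring
  have := hconv.norm_image_sub_le_of_norm_hasDerivWithin_le hd hb hs' hs
  rw [mul_comm]
  exact this

lemma sum_log_div_le (N : ℕ) (hN : 1 ≤ N) :
    ∑ n ∈ Icc 1 N, Real.log n / n ≤ Real.log N * (1 + Real.log N) := by
  have hN1 : (1 : ℝ) ≤ N := by exact_mod_cast hN
  have h1 : ∑ n ∈ Icc 1 N, Real.log n / n ≤ ∑ n ∈ Icc 1 N, Real.log N * (n : ℝ)⁻¹ := by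
    apply sum_le_sum
    intro n hn
    rw [mem_Icc] at hn
    have h2 : (1 : ℝ) ≤ n := by exact_mod_cast hn.1
    have h3 : (n : ℝ) ≤ N := by exact_mod_cast hn.2
    rw [div_eq_mul_inv]
    apply mul_le_mul_of_nonneg_right (Real.log_le_log (by linarith) h3)
    positivity
  refine h1.trans ?_
  rw [← mul_sum]
  apply mul_le_mul_of_nonneg_left _ (Real.log_nonneg hN1)
  have h4 := harmonic_le_one_add_log N
  rw [harmonic_eq_sum_Icc] at h4
  push_cast at h4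
  exact h4

/-- the zeta function at two points of `Re s ≥ 1` -/
theorem zeta_diff {s s' : ℂ} (hs : 1 ≤ s.re) (hs' : 1 ≤ s'.re) {t : ℝ} (ht : 0 < t)
    (hst : t ≤ |s.im|) (hst' : t ≤ |s'.im|) {N : ℕ} (hN : 2 ≤ N) {R : ℝ} (hR : ‖s‖ ≤ R)
    (hR' : ‖s'‖ ≤ R) :
    ‖riemannZeta s - riemannZeta s'‖ ≤ ‖s - s'‖ * (Real.log N * (1 + Real.log N)) +
      (4 / t + 4 * R / N) := by
  have hN0 : (0 : ℝ) < N := by exact_mod_cast (by omega : 0 < N)
  have h1 := zeta_approx hs ht hst hN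
  have h2 := zeta_approx hs' ht hst' hN
  have h3 : ‖∑ n ∈ Icc 1 N, (n : ℂ) ^ (-s) - ∑ n ∈ Icc 1 N, (n : ℂ) ^ (-s')‖ ≤
      ‖s - s'‖ * (Real.log N * (1 + Real.log N)) := by
    rw [← sum_sub_distrib]
    refine (norm_sum_le _ _).trans ?_
    calc _ ≤ ∑ n ∈ Icc 1 N, ‖s - s'‖ * (Real.log n / n) := by
          apply sum_le_sum
          intro n hn
          rw [mem_Icc] at hn
          exact cpow_diff hs hs' hn.1
      _ ≤ _ := by
          rw [← mul_sum]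
          exact mul_le_mul_of_nonneg_left (sum_log_div_le N (by omega)) (norm_nonneg _)
  have h4 : riemannZeta s - riemannZeta s' =
      (∑ n ∈ Icc 1 N, (n : ℂ) ^ (-s) - ∑ n ∈ Icc 1 N, (n : ℂ) ^ (-s')) +
      ((riemannZeta s - ∑ n ∈ Icc 1 N, (n : ℂ) ^ (-s)) -
      (riemannZeta s' - ∑ n ∈ Icc 1 N, (n : ℂ) ^ (-s'))) := by ring
  rw [h4]
  refine (norm_add_le _ _).trans (add_le_add h3 ((norm_sub_le _ _).trans ?_))
  have h5 : 2 * ‖s‖ / N ≤ 2 * R / N := by gcongr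
  have h6 : 2 * ‖s'‖ / N ≤ 2 * R / N := by gcongr
  calc _ ≤ (2 / t + 2 * R / N) + (2 / t + 2 * R / N) := add_le_add (by linarith) (by linarith)
    _ = _ := by ring

end Pool.Agent.H.MP_2e4794_nt.ZM
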