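import Pool.Agent.H.MP_2e4794_nt.ZM.Good
import Pool.Agent.H.MP_2e4794_nt.ZM.ZD

/-!
# From a large value of `ζ(1+iu)` to a large short sum over primes
-/

namespace Pool.Agent.H.MP_2e4794_nt.ZM

open Finset Filter Topology

lemma near : ∀ᶠ L : ℝ in atTop, ∀ u t : ℝ, Real.exp L ≤ u → u ≤ 3 * Real.exp L →
    Real.exp L ≤ t → t ≤ 3 * Real.exp L → |t - u| ≤ 1 / L ^ 3 →
    ‖riemannZeta (sg L + t * Complex.I) - riemannZeta (1 + u * Complex.I)‖ ≤ 48 / L := by
  filter_upwards [eventually_ge_atTop 10] with L hL10 u t hu1 hu2 ht1 ht2 htu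
  have hL0 : 0 < L := by linarith
  set x : ℝ := Real.exp L with hx
  have hx1 : L + 1 ≤ x := Real.add_one_le_exp L
  have hx0 : 0 < x := by linarith
  set N : ℕ := ⌈x ^ 2⌉₊ with hN
  have hN1 : x ^ 2 ≤ N := Nat.le_ceil _
  have hN2 : (N : ℝ) < x ^ 2 + 1 := Nat.ceil_lt_add_one (by positivity)
  have hN3 : (N : ℝ) ≤ 2 * x ^ 2 := by nlinarith
  have hN0 : (0 : ℝ) < N := lt_of_lt_of_le (by positivity) hN1
  have hN4 : 2 ≤ N := by
    have : (2 : ℝ) ≤ N := by nlinarith
    exact_mod_cast this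
  have hlogN : Real.log N ≤ 3 * L := by
    calc Real.log N ≤ Real.log (2 * x ^ 2) := Real.log_le_log hN0 hN3
      _ = Real.log 2 + 2 * L := by
          rw [Real.log_mul (by norm_num) (by positivity), Real.log_pow, hx, Real.log_exp]
          norm_num
      _ ≤ 3 * L := by
          have := Real.log_two_lt_d9
          linarith
  have hlogN0 : 0 ≤ Real.log N := Real.log_nonneg (by
    have : (2 : ℝ) ≤ N := by exact_mod_cast hN4
    linarith)
  have hsg : sg L = 1 + 1 / L ^ 10 := rfl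
  have h10 : 0 < 1 / L ^ 10 := by positivity
  have h103 : 1 / L ^ 10 ≤ 1 / L ^ 3 :=
    one_div_le_one_div_of_le (by positivity) (pow_le_pow_right₀ (by linarith) (by norm_num))
  have h31 : 1 / L ^ 3 ≤ 1 := by
    rw [div_le_one (by positivity)]
    exact one_le_pow₀ (by linarith)
  have hs1 : ((sg L : ℂ) + t * Complex.I).re = sg L := by simp
  have hs2 : ((1 : ℂ) + u * Complex.I).re = 1 := by simp
  have hs3 : ((sg L : ℂ) + t * Complex.I).im = t := by simp
  have hs4 : ((1 : ℂ) + u * Complex.I).im = u := by simp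
  have n1 : ‖(sg L : ℂ) + t * Complex.I‖ ≤ 5 * x := by
    refine (norm_add_le _ _).trans ?_
    rw [norm_mul, Complex.norm_I, mul_one, Complex.norm_real, Complex.norm_real,
      Real.norm_of_nonneg (by linarith), Real.norm_of_nonneg (by linarith)]
    linarith
  have n2 : ‖(1 : ℂ) + u * Complex.I‖ ≤ 5 * x := by
    refine (norm_add_le _ _).trans ?_
    rw [norm_mul, Complex.norm_I, mul_one, Complex.norm_real, norm_one,
      Real.norm_of_nonneg (by linarith)]
    linarith
  have hd := zeta_diff (s := (sg L : ℂ) + t * Complex.I) (s' := (1 : ℂ) + u * Complex.I)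
    (by rw [hs1]; linarith) (by rw [hs2]) (t := x) hx0
    (by rw [hs3, abs_of_nonneg (by linarith)]; exact ht1)
    (by rw [hs4, abs_of_nonneg (by linarith)]; exact hu1) hN4 n1 n2
  refine hd.trans ?_
  have hdist : ‖((sg L : ℂ) + t * Complex.I) - ((1 : ℂ) + u * Complex.I)‖ ≤ 2 / L ^ 3 := by
    have e1 : ((sg L : ℂ) + t * Complex.I) - ((1 : ℂ) + u * Complex.I) =
        ((1 / L ^ 10 : ℝ) : ℂ) + ((t - u : ℝ) : ℂ) * Complex.I := by
      rw [hsg]
      push_cast
      ring
    rw [e1]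
    refine (norm_add_le _ _).trans ?_
    rw [norm_mul, Complex.norm_I, mul_one, Complex.norm_real, Complex.norm_real,
      Real.norm_of_nonneg h10.le, Real.norm_eq_abs]
    have : 2 / L ^ 3 = 1 / L ^ 3 + 1 / L ^ 3 := by ring
    linarith
  have hprod : Real.log N * (1 + Real.log N) ≤ 12 * L ^ 2 := by
    calc Real.log N * (1 + Real.log N) ≤ (3 * L) * (1 + 3 * L) := by
          apply mul_le_mul hlogN (by linarith) (by linarith) (by linarith)
      _ ≤ 12 * L ^ 2 := by nlinarith
  have hfirst : ‖((sg L : ℂ) + t * Complex.I) - ((1 : ℂ) + u * Complex.I)‖ *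
      (Real.log N * (1 + Real.log N)) ≤ 24 / L := by
    calc _ ≤ 2 / L ^ 3 * (12 * L ^ 2) := by
          apply mul_le_mul hdist hprod _ (by positivity)
          exact mul_nonneg hlogN0 (by linarith)
      _ = 24 / L := by
          field_simp
          norm_num
  have hsecond : 4 / x + 4 * (5 * x) / N ≤ 24 / L := by
    have e1 : 4 / x ≤ 4 / L := div_le_div_of_nonneg_left (by norm_num) hL0 (by linarith)
    have e2 : 4 * (5 * x) / N ≤ 20 / L := by
      rw [div_le_div_iff₀ hN0 hL0]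
      nlinarith
    have e3 : 24 / L = 4 / L + 20 / L := by ring
    linarith
  have : 48 / L = 24 / L + 24 / L := by ring
  linarith

/-- **A large value forces a large short prime sum nearby.** -/
theorem bad_imp {A A' θ : ℝ} (hA' : 0 < A') (hθ : 1 < θ) (hθA : θ * A' < A) :
    ∀ᶠ B : ℝ in atTop, ∀ L : ℝ, B ≤ L → ∀ u t : ℝ, Real.exp L ≤ u → u ≤ 3 * Real.exp L →
    Real.exp L ≤ t → t ≤ 3 * Real.exp L → |t - u| ≤ 1 / L ^ 3 →
    (A * Real.exp Real.eulerMascheroniConstant * Real.log B ≤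
        ‖riemannZeta (1 + u * Complex.I)‖ ∨
      A * (6 / Real.pi ^ 2) * Real.exp Real.eulerMascheroniConstant * Real.log B ≤
        ‖riemannZeta (1 + u * Complex.I)‖⁻¹) →
    ∃ j < JJ L, 1 / Real.log ((yy A' B * 2 ^ j : ℕ) : ℝ) ^ 2 ≤
      ‖SS (yy A' B * 2 ^ j) (sg L) t‖ := by
  set c1 : ℝ := Real.exp Real.eulerMascheroniConstant with hc1
  set c2 : ℝ := 6 / Real.pi ^ 2 * Real.exp Real.eulerMascheroniConstant with hc2
  have hc1p : 0 < c1 := Real.exp_pos _
  have hc2p : 0 < c2 := by positivity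
  have hA : 0 < A := by nlinarith
  have hθA' : 0 < θ * A' := by positivity
  have t1 : Tendsto (fun L : ℝ => Real.log L / L) atTop (𝓝 0) := by
    have := (isLittleO_log_rpow_atTop (r := 1) one_pos).tendsto_div_nhds_zero
    simpa using this
  have t2 : Tendsto (fun L : ℝ => 1 / L) atTop (𝓝 0) := tendsto_id.const_div_atTop 1
  have q1 : ∀ᶠ L : ℝ in atTop, 48 * (1 / L) < (A - θ * A') * c1 := by
    have h1 := t2.const_mul 48
    rw [mul_zero] at h1
    exact h1.eventually (gt_mem_nhds (mul_pos (by linarith) hc1p))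
  have q2 : ∀ᶠ L : ℝ in atTop, 48 * (Real.log L / L) * c2 < 1 / (θ * A') - 1 / A := by
    have h1 := (t1.const_mul 48).mul_const c2
    rw [mul_zero, zero_mul] at h1
    apply h1.eventually (gt_mem_nhds _)
    have := one_div_lt_one_div_of_lt hθA' hθA
    linarith
  obtain ⟨L0, hnear'⟩ := eventually_atTop.1 near
  filter_upwards [good_point hA' hθ, q1, q2, eventually_ge_atTop 10, eventually_ge_atTop L0,
    Real.tendsto_log_atTop.eventually_ge_atTop 1] with B hgood q1 q2 hB10 hBL0 hl1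
  intro L hBL u t hu1 hu2 ht1 ht2 htu hbad
  have hL10 : 10 ≤ L := hB10.trans hBL
  have hnear := hnear' L (hBL0.trans hBL)
  have hB0 : 0 < B := by linarith
  have hdiv : 48 / L ≤ 48 / B := div_le_div_of_nonneg_left (by norm_num) hB0 hBL
  by_contra hno
  push Not at hno
  have hL0 : 0 < L := by linarith
  obtain ⟨g1, g2⟩ := hgood L hBL t hno
  have hn := (hnear u t hu1 hu2 ht1 ht2 htu).trans hdiv
  set z := riemannZeta (sg L + t * Complex.I) with hz
  set w := riemannZeta (1 + u * Complex.I) with hw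
  set l : ℝ := Real.log B with hl
  have hwz : ‖w‖ ≤ ‖z‖ + 48 / B := by
    have := norm_sub_norm_le w z
    rw [norm_sub_rev] at this
    linarith
  have hzw : ‖z‖ ≤ ‖w‖ + 48 / B := by
    have := norm_sub_norm_le z w
    linarith
  rcases hbad with hbad | hbad
  · have h1 : A * c1 * l ≤ ‖w‖ := hbad
    have h2 : (A - θ * A') * c1 * l ≤ 48 / B := by
      have h3 : θ * (c1 * (A' * l)) = θ * A' * c1 * l := by ring
      rw [h3] at g1
      linarith
    have h4 : (A - θ * A') * c1 * 1 ≤ (A - θ * A') * c1 * l :=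
      mul_le_mul_of_nonneg_left hl1 (mul_pos (by linarith) hc1p).le
    have h5 : 48 * (1 / B) = 48 / B := by ring
    linarith
  · have h1 : A * c2 * l ≤ ‖w‖⁻¹ := by
      refine le_trans ?_ hbad
      have h6 : A * (6 / Real.pi ^ 2) * Real.exp Real.eulerMascheroniConstant = A * c2 := by
        rw [hc2]
        ring
      rw [h6]
    have hAcl : 0 < A * c2 * l := by positivity
    have hwinv : 0 < ‖w‖⁻¹ := lt_of_lt_of_le hAcl h1
    have hw0 : 0 < ‖w‖ := inv_pos.1 hwinv
    have h2 : ‖w‖ ≤ 1 / (A * c2 * l) := by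
      rw [one_div, ← inv_inv ‖w‖]
      exact inv_anti₀ hAcl h1
    have h3 : 1 / (θ * (c2 * (A' * l))) ≤ ‖z‖ := by
      rw [div_le_iff₀ (by positivity)]
      exact g2
    have h4 : 1 / (θ * (c2 * (A' * l))) - 1 / (A * c2 * l) = (1 / (θ * A') - 1 / A) / (c2 * l) := by
      have e1 : A' ≠ 0 := hA'.ne'
      have e2 : θ ≠ 0 := by linarith
      have e3 : l ≠ 0 := by linarith
      field_simp
    have h5 : (1 / (θ * A') - 1 / A) / (c2 * l) ≤ 48 / B := by linarith
    rw [div_le_iff₀ (by positivity)] at h5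
    have h6 : 48 / B * (c2 * l) = 48 * (l / B) * c2 := by ring
    linarith

end Pool.Agent.H.MP_2e4794_nt.ZM
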