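import Mathlib

/-!
# Approximation of the zeta function on and near the line `Re s = 1` by a finite sum
-/

namespace Pool.Agent.H.MP_2e4794_nt.ZM

open Finset Filter Topology

/-- `F s x = x^(1-s)/(1-s)` -/
noncomputable def FF (s : ℂ) (x : ℝ) : ℂ := (x : ℂ) ^ (-s + 1) / (-s + 1)

lemma norm_cpow_real {x : ℝ} (hx : 0 < x) (s : ℂ) : ‖(x : ℂ) ^ s‖ = x ^ s.re :=
  Complex.norm_cpow_eq_rpow_re_of_pos hx s

lemma hasDerivAt_FF {s : ℂ} (hs : s ≠ 1) {x : ℝ} (hx : 0 < x) :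
    HasDerivAt (FF s) ((x : ℂ) ^ (-s)) x := by
  unfold FF
  have h0 : -s + 1 ≠ 0 := by
    intro h
    apply hs
    linear_combination -h
  have h1 := (hasDerivAt_ofReal_cpow_const hx.ne' h0).div_const (-s + 1)
  rw [mul_div_cancel_left₀ _ h0, add_sub_cancel_right] at h1
  exact h1

lemma norm_FF_le {s : ℂ} (hs : 1 ≤ s.re) {t : ℝ} (ht : 0 < t) (hst : t ≤ |s.im|) {x : ℝ}
    (hx : 1 ≤ x) : ‖FF s x‖ ≤ 1 / t := by
  unfold FF
  rw [norm_div, norm_cpow_real (by linarith)]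
  have h1 : x ^ (-s + 1).re ≤ 1 := by
    apply Real.rpow_le_one_of_one_le_of_nonpos hx
    simp only [Complex.add_re, Complex.neg_re, Complex.one_re]
    linarith
  have h2 : t ≤ ‖-s + 1‖ := by
    refine hst.trans ?_
    have := Complex.abs_im_le_norm (-s + 1)
    simpa using this
  exact div_le_div₀ zero_le_one h1 ht h2

lemma cpow_sub_le {s : ℂ} (hs : 1 ≤ s.re) {n : ℕ} (hn : 1 ≤ n) {x : ℝ}
    (h1 : (n : ℝ) ≤ x) (h2 : x ≤ n + 1) :
    ‖(x : ℂ) ^ (-s) - ((n + 1 : ℝ) : ℂ) ^ (-s)‖ ≤ ‖s‖ / (n : ℝ) ^ 2 := by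
  have hn1 : (1 : ℝ) ≤ n := by exact_mod_cast hn
  have hs0 : s ≠ 0 := by
    rintro rfl
    simp at hs
    linarith
  have key := norm_image_sub_le_of_norm_deriv_le_segment' (f := fun y : ℝ => (y : ℂ) ^ (-s))
    (f' := fun y : ℝ => (-s) * (y : ℂ) ^ (-s - 1)) (a := x) (b := n + 1)
    (C := ‖s‖ / (n : ℝ) ^ 2) ?_ ?_ (n + 1) ⟨h2, le_rfl⟩
  · rw [norm_sub_rev] at key
    refine key.trans ?_
    have : 0 ≤ ‖s‖ / (n : ℝ) ^ 2 := by positivity
    nlinarith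
  · intro y hy
    have hy0 : 0 < y := by linarith [hy.1]
    exact (hasDerivAt_ofReal_cpow_const hy0.ne' (neg_ne_zero.2 hs0)).hasDerivWithinAt
  · intro y hy
    have hy0 : 0 < y := by linarith [hy.1]
    have hy1 : 1 ≤ y := by linarith [hy.1]
    rw [norm_mul, norm_neg, norm_cpow_real hy0, div_eq_mul_inv]
    apply mul_le_mul_of_nonneg_left _ (norm_nonneg _)
    calc y ^ (-s - 1).re ≤ y ^ (-2 : ℝ) := by
          apply Real.rpow_le_rpow_of_exponent_le hy1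
          simp only [Complex.sub_re, Complex.neg_re, Complex.one_re]
          linarith
      _ ≤ (n : ℝ) ^ (-2 : ℝ) := by
          apply Real.rpow_le_rpow_of_nonpos (by linarith) (by linarith [hy.1]) (by norm_num)
      _ = ((n : ℝ) ^ 2)⁻¹ := by
          rw [Real.rpow_neg (by linarith)]
          norm_num

lemma step_le {s : ℂ} (hs : 1 ≤ s.re) (hs1 : s ≠ 1) {n : ℕ} (hn : 1 ≤ n) :
    ‖((n + 1 : ℝ) : ℂ) ^ (-s) - (FF s (n + 1) - FF s n)‖ ≤ ‖s‖ / (n : ℝ) ^ 2 := by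
  have hn1 : (1 : ℝ) ≤ n := by exact_mod_cast hn
  have key := norm_image_sub_le_of_norm_deriv_le_segment'
    (f := fun y : ℝ => FF s y - (y : ℂ) * ((n + 1 : ℝ) : ℂ) ^ (-s))
    (f' := fun y : ℝ => (y : ℂ) ^ (-s) - 1 * ((n + 1 : ℝ) : ℂ) ^ (-s)) (a := n) (b := n + 1)
    (C := ‖s‖ / (n : ℝ) ^ 2) ?_ ?_ (n + 1) ⟨by linarith, le_rfl⟩
  · have h1 : (n : ℝ) + 1 - n = 1 := by ring
    rw [h1, mul_one] at key
    rw [norm_sub_rev]
    have h2 : FF s (n + 1) - FF s n - ((n + 1 : ℝ) : ℂ) ^ (-s) =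
        FF s (n + 1) - ((n + 1 : ℝ) : ℂ) * ((n + 1 : ℝ) : ℂ) ^ (-s) -
        (FF s n - ((n : ℝ) : ℂ) * ((n + 1 : ℝ) : ℂ) ^ (-s)) := by
      push_cast
      ring
    rw [h2]
    exact key
  · intro y hy
    have hy0 : 0 < y := by linarith [hy.1]
    apply HasDerivAt.hasDerivWithinAt
    apply (hasDerivAt_FF hs1 hy0).sub
    exact (Complex.ofRealCLM.hasDerivAt (x := y)).mul_const _
  · intro y hy
    rw [one_mul]
    exact cpow_sub_le hs hn hy.1 hy.2.le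

/-- tail of the series for `ζ` on `Re s ≥ 1` -/
theorem tail_le {s : ℂ} (hs : 1 ≤ s.re) {t : ℝ} (ht : 0 < t) (hst : t ≤ |s.im|) {N : ℕ}
    (hN : 2 ≤ N) (M : ℕ) (hM : N ≤ M) :
    ‖∑ n ∈ Ioc N M, (n : ℂ) ^ (-s)‖ ≤ 2 / t + 2 * ‖s‖ / N := by
  have hs1 : s ≠ 1 := by
    rintro rfl
    simp at hst
    linarith
  have hN1 : (2 : ℝ) ≤ N := by exact_mod_cast hN
  have main : ∀ M : ℕ, N ≤ M → ‖∑ n ∈ Ioc N M, (n : ℂ) ^ (-s) - (FF s M - FF s N)‖ ≤
      ‖s‖ * (1 / ((N : ℝ) - 1) - 1 / ((M : ℝ) - 1)) := by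
    intro M hM
    induction M, hM using Nat.le_induction with
    | base => simp
    | succ M hM ih =>
      have hM1 : (2 : ℝ) ≤ M := by exact_mod_cast hN.trans hM
      have h1 : ∑ n ∈ Ioc N (M + 1), (n : ℂ) ^ (-s) =
          ∑ n ∈ Ioc N M, (n : ℂ) ^ (-s) + ((M + 1 : ℕ) : ℂ) ^ (-s) := by
        rw [← Finset.sum_Ioc_succ_top (by omega)]
      rw [h1]
      have h2 := step_le hs hs1 (n := M) (by omega)
      have h3 : ∑ n ∈ Ioc N M, (n : ℂ) ^ (-s) + ((M + 1 : ℕ) : ℂ) ^ (-s) -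
          (FF s ((M + 1 : ℕ) : ℝ) - FF s N) =
          (∑ n ∈ Ioc N M, (n : ℂ) ^ (-s) - (FF s M - FF s N)) +
          (((M + 1 : ℝ) : ℂ) ^ (-s) - (FF s (M + 1) - FF s M)) := by
        push_cast
        ring
      rw [h3]
      refine (norm_add_le _ _).trans ?_
      have h4 : ‖s‖ / (M : ℝ) ^ 2 ≤ ‖s‖ * (1 / ((M : ℝ) - 1) - 1 / (((M + 1 : ℕ) : ℝ) - 1)) := by
        rw [div_eq_mul_one_div]
        apply mul_le_mul_of_nonneg_left _ (norm_nonneg _)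
        push_cast
        have h5 : (M : ℝ) + 1 - 1 = M := by ring
        rw [h5]
        have h6 : (0 : ℝ) < M - 1 := by linarith
        have h7 : 1 / ((M : ℝ) - 1) - 1 / M = 1 / ((M - 1) * M) := by
          field_simp
          ring
        rw [h7]
        apply one_div_le_one_div_of_le (by positivity)
        nlinarith
      have h8 : ‖s‖ * (1 / ((N : ℝ) - 1) - 1 / (((M + 1 : ℕ) : ℝ) - 1)) =
          ‖s‖ * (1 / ((N : ℝ) - 1) - 1 / ((M : ℝ) - 1)) +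
          ‖s‖ * (1 / ((M : ℝ) - 1) - 1 / (((M + 1 : ℕ) : ℝ) - 1)) := by ring
      rw [h8]
      exact add_le_add ih (h2.trans h4)
  have h1 := main M hM
  have hM1 : (2 : ℝ) ≤ M := by exact_mod_cast hN.trans hM
  have h2 := norm_FF_le hs ht hst (x := N) (by linarith)
  have h3 := norm_FF_le hs ht hst (x := M) (by linarith)
  have h4 : 1 / ((N : ℝ) - 1) - 1 / ((M : ℝ) - 1) ≤ 2 / N := by
    have h5 : 0 ≤ 1 / ((M : ℝ) - 1) := by
      apply div_nonneg zero_le_one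
      linarith
    have h6 : 1 / ((N : ℝ) - 1) ≤ 2 / N := by
      rw [div_le_div_iff₀ (by linarith) (by linarith)]
      linarith
    linarith
  have h7 : ‖s‖ * (1 / ((N : ℝ) - 1) - 1 / ((M : ℝ) - 1)) ≤ 2 * ‖s‖ / N := by
    calc _ ≤ ‖s‖ * (2 / N) := mul_le_mul_of_nonneg_left h4 (norm_nonneg _)
      _ = _ := by ring
  have h8 : ∑ n ∈ Ioc N M, (n : ℂ) ^ (-s) =
      (∑ n ∈ Ioc N M, (n : ℂ) ^ (-s) - (FF s M - FF s N)) + (FF s M - FF s N) := by ring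
  rw [h8]
  calc _ ≤ ‖∑ n ∈ Ioc N M, (n : ℂ) ^ (-s) - (FF s M - FF s N)‖ + (‖FF s M‖ + ‖FF s N‖) :=
        (norm_add_le _ _).trans (add_le_add le_rfl (norm_sub_le _ _))
    _ ≤ 2 * ‖s‖ / N + (1 / t + 1 / t) := add_le_add (h1.trans h7) (add_le_add h3 h2)
    _ = _ := by ring

lemma zeta_approx_gt {s : ℂ} (hs : 1 < s.re) {t : ℝ} (ht : 0 < t) (hst : t ≤ |s.im|) {N : ℕ}
    (hN : 2 ≤ N) :
    ‖riemannZeta s - ∑ n ∈ Icc 1 N, (n : ℂ) ^ (-s)‖ ≤ 2 / t + 2 * ‖s‖ / N := by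
  have h1 : Tendsto (fun M : ℕ => ∑ n ∈ Icc 1 M, (n : ℂ) ^ (-s)) atTop (𝓝 (riemannZeta s)) := by
    have h2 : Summable fun n : ℕ => 1 / ((n : ℂ) + 1) ^ s := by
      have := (summable_nat_add_iff 1).2 (Complex.summable_one_div_nat_cpow.2 hs)
      simpa using this
    have h3 := h2.hasSum.tendsto_sum_nat
    rw [← zeta_eq_tsum_one_div_nat_add_one_cpow hs] at h3
    refine h3.congr fun M => ?_
    have h4 : Icc 1 M = Ico (0 + 1) (M + 1) := by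
      ext n
      simp only [mem_Icc, mem_Ico]
      omega
    rw [h4, ← Finset.sum_Ico_add' (fun n : ℕ => (n : ℂ) ^ (-s)) 0 M 1, Finset.range_eq_Ico]
    apply Finset.sum_congr rfl
    intro n _
    rw [Complex.cpow_neg]
    push_cast
    rw [one_div]
  have h2 : Tendsto (fun M : ℕ => ‖∑ n ∈ Icc 1 M, (n : ℂ) ^ (-s) - ∑ n ∈ Icc 1 N, (n : ℂ) ^ (-s)‖)
      atTop (𝓝 ‖riemannZeta s - ∑ n ∈ Icc 1 N, (n : ℂ) ^ (-s)‖) :=
    (h1.sub_const _).norm
  refine le_of_tendsto h2 ?_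
  filter_upwards [eventually_ge_atTop N] with M hM
  have h3 : ∑ n ∈ Icc 1 M, (n : ℂ) ^ (-s) - ∑ n ∈ Icc 1 N, (n : ℂ) ^ (-s) =
      ∑ n ∈ Ioc N M, (n : ℂ) ^ (-s) := by
    have h4 : Icc 1 M = Icc 1 N ∪ Ioc N M := by
      ext n
      simp only [mem_union, mem_Icc, mem_Ioc]
      omega
    have h5 : Disjoint (Icc 1 N) (Ioc N M) := by
      rw [Finset.disjoint_left]
      intro n h6 h7
      simp only [mem_Icc, mem_Ioc] at h6 h7
      omega
    rw [h4, sum_union h5]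
    ring
  rw [h3]
  exact tail_le hs.le ht hst hN M hM

/-- On and to the right of the line `Re s = 1`, away from `1`, the zeta function is close to its
partial sum. -/
theorem zeta_approx {s : ℂ} (hs : 1 ≤ s.re) {t : ℝ} (ht : 0 < t) (hst : t ≤ |s.im|) {N : ℕ}
    (hN : 2 ≤ N) :
    ‖riemannZeta s - ∑ n ∈ Icc 1 N, (n : ℂ) ^ (-s)‖ ≤ 2 / t + 2 * ‖s‖ / N := by
  have hs1 : s ≠ 1 := by
    rintro rfl
    simp at hst
    linarith
  have hc1 : ContinuousAt (fun h : ℝ => riemannZeta (s + h)) 0 := by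
    have : ContinuousAt riemannZeta (s + (0 : ℝ)) := by
      simpa using (differentiableAt_riemannZeta hs1).continuousAt
    exact ContinuousAt.comp (f := fun h : ℝ => s + (h : ℂ)) this (by fun_prop)
  have hc2 : Continuous (fun h : ℝ => ∑ n ∈ Icc 1 N, (n : ℂ) ^ (-(s + h))) := by
    apply continuous_finsetSum
    intro n hn
    rw [mem_Icc] at hn
    have hn0 : (n : ℂ) ≠ 0 := by exact_mod_cast (by omega : n ≠ 0)
    exact Continuous.const_cpow (by fun_prop) (Or.inl hn0)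
  have hc3 : Tendsto (fun h : ℝ => ‖riemannZeta (s + h) -
      ∑ n ∈ Icc 1 N, (n : ℂ) ^ (-(s + h))‖) (𝓝[>] 0)
      (𝓝 ‖riemannZeta (s + (0 : ℝ)) - ∑ n ∈ Icc 1 N, (n : ℂ) ^ (-(s + (0 : ℝ)))‖) :=
    ((hc1.sub hc2.continuousAt).norm.tendsto).mono_left nhdsWithin_le_nhds
  have hc4 : Tendsto (fun h : ℝ => 2 / t + 2 * ‖s + h‖ / N) (𝓝[>] 0)
      (𝓝 (2 / t + 2 * ‖s + (0 : ℝ)‖ / N)) := by
    have : Continuous (fun h : ℝ => 2 / t + 2 * ‖s + h‖ / N) := by fun_prop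
    exact this.continuousAt.tendsto.mono_left nhdsWithin_le_nhds
  have hc5 := le_of_tendsto_of_tendsto hc3 hc4 (by
    filter_upwards [self_mem_nhdsWithin] with h hh
    have hh' : (0 : ℝ) < h := hh
    apply zeta_approx_gt _ ht _ hN
    · simp only [Complex.add_re, Complex.ofReal_re]
      linarith
    · simpa using hst)
  simpa using hc5

end Pool.Agent.H.MP_2e4794_nt.ZM
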